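import Pool.Agent.LH12.Stmts

/-!
# Package C: avoiding finitely many proper subspaces
-/

namespace Pool.LH12

open Finset

theorem pkgC : S_C := by
  intro d T hT U hU hne
  by_contra hcon
  push Not at hcon
  have hsub : U ⊆ ⋃ S ∈ T, (S : Set (Fin d → ℝ)) := by
    intro x hx
    obtain ⟨S, hS, hxS⟩ := hcon x hx
    simp only [Set.mem_iUnion]
    exact ⟨S, hS, hxS⟩
  have h0 : MeasureTheory.volume (⋃ S ∈ T, (S : Set (Fin d → ℝ))) = 0 := by
    have h := (MeasureTheory.measure_biUnion_null_iff (μ := MeasureTheory.volume)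
      (s := fun S : Submodule ℝ (Fin d → ℝ) => (S : Set (Fin d → ℝ)))
      (Finset.countable_toSet T)).2
      (fun S hS => MeasureTheory.Measure.addHaar_submodule _ S (hT S (by simpa using hS)))
    simpa using h
  have h1 := hU.measure_pos MeasureTheory.volume hne
  exact h1.ne' (MeasureTheory.measure_mono_null hsub h0)

/-- Every nonempty open set contains a generic vector. -/
theorem exists_generic {d : ℕ} (Φ : Fan d) (U : Set (Fin d → ℝ)) (hU : IsOpen U)
    (hne : U.Nonempty) : ∃ ξ ∈ U, Φ.Generic ξ := by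
  classical
  set T : Finset (Submodule ℝ (Fin d → ℝ)) :=
    Φ.facets.biUnion (fun σ => σ.image (fun v => LinearMap.ker (crd σ v))) with hT
  have hT' : ∀ S ∈ T, S ≠ ⊤ := by
    intro S hS
    rw [hT, mem_biUnion] at hS
    obtain ⟨σ, hσ, hS⟩ := hS
    rw [mem_image] at hS
    obtain ⟨v, hv, rfl⟩ := hS
    intro htop
    rw [LinearMap.ker_eq_top] at htop
    have h1 := Φ.crd_self hσ hv hv
    rw [htop] at h1
    simp at h1
  obtain ⟨ξ, hξ, h⟩ := pkgC d T hT' U hU hne
  refine ⟨ξ, hξ, fun σ hσ v hv h0 => ?_⟩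
  apply h (LinearMap.ker (crd σ v))
  · rw [hT, mem_biUnion]
    exact ⟨σ, hσ, mem_image_of_mem _ hv⟩
  · exact h0

/-- Two linear maps which agree at all generic vectors are equal. -/
theorem eq_of_generic {d : ℕ} (Φ : Fan d) (L L' : (Fin d → ℝ) →ₗ[ℝ] ℝ)
    (h : ∀ ξ, Φ.Generic ξ → L ξ = L' ξ) : L = L' := by
  by_contra hne
  have hc : Continuous L := L.continuous_of_finiteDimensional
  have hc' : Continuous L' := L'.continuous_of_finiteDimensional
  have hopen : IsOpen {x | L x ≠ L' x} := isOpen_ne_fun hc hc'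
  have hnon : {x | L x ≠ L' x}.Nonempty := by
    by_contra hemp
    rw [Set.not_nonempty_iff_eq_empty] at hemp
    apply hne
    ext1 i
    ext
    by_contra hx
    have : (LinearMap.single ℝ (fun _ => ℝ) i 1 : Fin d → ℝ) ∈ {x | L x ≠ L' x} := hx
    rw [hemp] at this
    exact this
  obtain ⟨ξ, hξ, hg⟩ := exists_generic Φ _ hopen hnon
  exact hξ (h ξ hg)

end Pool.LH12
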