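import Mathlib

/-!
# Triangulated simplices as fans: basic definitions

`Fan d`: the facets of a triangulation of the standard simplex of `ℝ^d`, seen as maximal cones
of a complete fan of the positive orthant.
-/

namespace Pool.LH12

open Finset

variable {d : ℕ}

/-- The cone generated by a finite set of vectors. -/
def cone (s : Finset (Fin d → ℝ)) : Set (Fin d → ℝ) :=
  {x | ∃ μ : (Fin d → ℝ) → ℝ, (∀ v ∈ s, 0 ≤ μ v) ∧ x = ∑ v ∈ s, μ v • v}

/-- The facets of a triangulation of the standard simplex. -/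
structure Fan (d : ℕ) where
  facets : Finset (Finset (Fin d → ℝ))
  card : ∀ σ ∈ facets, σ.card = d
  indep : ∀ σ ∈ facets, LinearIndependent ℝ (fun v : σ => (v : Fin d → ℝ))
  nonneg : ∀ σ ∈ facets, ∀ v ∈ σ, ∀ i, 0 ≤ v i
  sum_one : ∀ σ ∈ facets, ∀ v ∈ σ, ∑ i, v i = 1
  cover : ∀ x : Fin d → ℝ, (∀ i, 0 ≤ x i) → ∃ σ ∈ facets, x ∈ cone σ
  inter : ∀ σ ∈ facets, ∀ τ ∈ facets, ∀ x, x ∈ cone σ → x ∈ cone τ → x ∈ cone (σ ∩ τ)

/-- The vertices of the triangulation. -/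
noncomputable def Fan.verts (Φ : Fan d) : Finset (Fin d → ℝ) := Φ.facets.biUnion id

/-- The basis given by an independent set of `d` vectors. -/
noncomputable def bas (σ : Finset (Fin d → ℝ)) (h : σ.card = d)
    (hi : LinearIndependent ℝ (fun v : σ => (v : Fin d → ℝ))) : Module.Basis σ ℝ (Fin d → ℝ) :=
  haveI : Nonempty σ ∨ IsEmpty σ := by
    rcases isEmpty_or_nonempty σ with h | h
    · exact Or.inr h
    · exact Or.inl h
  Module.Basis.mk hi (by
    have h1 : Module.finrank ℝ (Submodule.span ℝ (Set.range (fun v : σ => (v : Fin d → ℝ)))) = d := by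
      rw [finrank_span_eq_card hi]
      simp [h]
    have h2 : Submodule.span ℝ (Set.range (fun v : σ => (v : Fin d → ℝ))) = ⊤ := by
      apply Submodule.eq_top_of_finrank_eq
      rw [h1]
      simp
    rw [h2])

open Classical in
/-- The coordinate functional of `v` with respect to the basis `σ` (zero if `v ∉ σ`). -/
noncomputable def crd (σ : Finset (Fin d → ℝ)) (v : Fin d → ℝ) : (Fin d → ℝ) →ₗ[ℝ] ℝ :=
  if h : (σ.card = d ∧ LinearIndependent ℝ (fun v : σ => (v : Fin d → ℝ))) ∧ v ∈ σ then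
    (bas σ h.1.1 h.1.2).coord ⟨v, h.2⟩
  else 0

lemma crd_of_notMem {σ : Finset (Fin d → ℝ)} {v : Fin d → ℝ} (h : v ∉ σ) : crd σ v = 0 := by
  unfold crd
  rw [dif_neg]
  tauto

lemma crd_apply_self {σ : Finset (Fin d → ℝ)} (hc : σ.card = d)
    (hi : LinearIndependent ℝ (fun v : σ => (v : Fin d → ℝ))) {u v : Fin d → ℝ}
    (hu : u ∈ σ) (hv : v ∈ σ) : crd σ v u = if u = v then 1 else 0 := by
  unfold crd
  rw [dif_pos ⟨⟨hc, hi⟩, hv⟩]
  have h1 : u = bas σ hc hi ⟨u, hu⟩ := by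
    simp [bas]
  conv_lhs => rw [h1]
  rw [Module.Basis.coord_apply, Module.Basis.repr_self, Finsupp.single_apply]
  simp [Subtype.ext_iff]

lemma sum_crd_smul {σ : Finset (Fin d → ℝ)} (hc : σ.card = d)
    (hi : LinearIndependent ℝ (fun v : σ => (v : Fin d → ℝ))) (x : Fin d → ℝ) :
    ∑ v ∈ σ, crd σ v x • v = x := by
  have h1 := (bas σ hc hi).sum_repr x
  rw [← Finset.sum_attach]
  conv_rhs => rw [← h1]
  rw [Finset.univ_eq_attach]
  apply Finset.sum_congr rfl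
  intro v _
  unfold crd
  rw [dif_pos ⟨⟨hc, hi⟩, v.2⟩]
  simp [bas]

lemma crd_sum {σ : Finset (Fin d → ℝ)} (hc : σ.card = d)
    (hi : LinearIndependent ℝ (fun v : σ => (v : Fin d → ℝ))) (μ : (Fin d → ℝ) → ℝ)
    {s : Finset (Fin d → ℝ)} (hs : s ⊆ σ) {v : Fin d → ℝ} (hv : v ∈ σ) :
    crd σ v (∑ u ∈ s, μ u • u) = if v ∈ s then μ v else 0 := by
  rw [map_sum]
  have : ∀ u ∈ s, crd σ v (μ u • u) = if u = v then μ u else 0 := by
    intro u hu
    rw [map_smul, crd_apply_self hc hi (hs hu) hv]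
    split_ifs <;> simp
  rw [Finset.sum_congr rfl this]
  simp only [Finset.sum_ite_eq' s v]

/-- Piecewise linear extension: the value at `x` of the linear function on `ℝ^d` which takes the
values `p v` at the vertices `v` of `σ`. -/
noncomputable def pl {A : Type*} [AddCommGroup A] [Module ℝ A] (σ : Finset (Fin d → ℝ))
    (p : (Fin d → ℝ) → A) (x : Fin d → ℝ) : A := ∑ v ∈ σ, crd σ v x • p v

namespace Fan

variable (Φ : Fan d)

lemma sum_crd {σ : Finset (Fin d → ℝ)} (hσ : σ ∈ Φ.facets) (x : Fin d → ℝ) :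
    ∑ v ∈ σ, crd σ v x • v = x := sum_crd_smul (Φ.card σ hσ) (Φ.indep σ hσ) x

lemma crd_self {σ : Finset (Fin d → ℝ)} (hσ : σ ∈ Φ.facets) {u v : Fin d → ℝ}
    (hu : u ∈ σ) (hv : v ∈ σ) : crd σ v u = if u = v then 1 else 0 :=
  crd_apply_self (Φ.card σ hσ) (Φ.indep σ hσ) hu hv

lemma crd_comb {σ : Finset (Fin d → ℝ)} (hσ : σ ∈ Φ.facets) (μ : (Fin d → ℝ) → ℝ)
    {s : Finset (Fin d → ℝ)} (hs : s ⊆ σ) {v : Fin d → ℝ} (hv : v ∈ σ) :
    crd σ v (∑ u ∈ s, μ u • u) = if v ∈ s then μ v else 0 :=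
  crd_sum (Φ.card σ hσ) (Φ.indep σ hσ) μ hs hv

lemma mem_cone_iff {σ : Finset (Fin d → ℝ)} (hσ : σ ∈ Φ.facets) {x : Fin d → ℝ} :
    x ∈ cone σ ↔ ∀ v ∈ σ, 0 ≤ crd σ v x := by
  constructor
  · rintro ⟨μ, hμ, rfl⟩ v hv
    rw [Φ.crd_comb hσ μ (Finset.Subset.refl σ) hv, if_pos hv]
    exact hμ v hv
  · intro h
    exact ⟨fun v => crd σ v x, h, (Φ.sum_crd hσ x).symm⟩

/-- Linear functions are reproduced by the piecewise linear extension. -/
lemma pl_linear {σ : Finset (Fin d → ℝ)} (hσ : σ ∈ Φ.facets) (l : (Fin d → ℝ) →ₗ[ℝ] ℝ)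
    (x : Fin d → ℝ) : pl σ l x = l x := by
  conv_rhs => rw [← Φ.sum_crd hσ x]
  rw [map_sum]
  simp [pl]

/-- The intersection property in coordinates: if `x` lies in the cones of the facets `σ` and `τ`,
the coordinates of `x` at the vertices outside `τ` vanish. -/
lemma crd_eq_zero_of_mem {σ τ : Finset (Fin d → ℝ)} (hσ : σ ∈ Φ.facets) (hτ : τ ∈ Φ.facets)
    {x : Fin d → ℝ} (hx : x ∈ cone σ) (hx' : x ∈ cone τ) {v : Fin d → ℝ} (hv : v ∈ σ)
    (hv' : v ∉ τ) : crd σ v x = 0 := by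
  obtain ⟨μ, _, rfl⟩ := Φ.inter σ hσ τ hτ x hx hx'
  rw [Φ.crd_comb hσ μ Finset.inter_subset_left hv, if_neg]
  simp [hv']

/-- If all coordinates of `x` in the facet `σ` are positive and `x` lies in the cone of the facet
`τ`, then `σ = τ`. -/
lemma eq_of_pos {σ τ : Finset (Fin d → ℝ)} (hσ : σ ∈ Φ.facets) (hτ : τ ∈ Φ.facets)
    {x : Fin d → ℝ} (hx : ∀ v ∈ σ, 0 < crd σ v x) (hx' : x ∈ cone τ) : σ = τ := by
  apply Finset.eq_of_subset_of_card_le
  · intro v hv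
    by_contra hv'
    have h1 : x ∈ cone σ := (Φ.mem_cone_iff hσ).2 fun v hv => (hx v hv).le
    exact (hx v hv).ne' (Φ.crd_eq_zero_of_mem hσ hτ h1 hx' hv hv')
  · rw [Φ.card σ hσ, Φ.card τ hτ]

end Fan

/-- A vector is generic for the fan if it lies on no hyperplane spanned by a wall. -/
def Fan.Generic (Φ : Fan d) (ξ : Fin d → ℝ) : Prop :=
  ∀ σ ∈ Φ.facets, ∀ v ∈ σ, crd σ v ξ ≠ 0

/-- A vertex (or any vector) with positive coordinates. -/
def IsInt (v : Fin d → ℝ) : Prop := ∀ i, 0 < v i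

end Pool.LH12
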