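import Pool.Agent.LH12.Stmts

/-!
# Package D: connectivity through walls inside an open convex subset of the open orthant
-/

namespace Pool.LH12

open Finset

lemma span_ne_top_of_card {d : ℕ} {κ : Finset (Fin d → ℝ)} (h : κ.card + 1 ≤ d) :
    Submodule.span ℝ (κ : Set (Fin d → ℝ)) ≠ ⊤ := by
  intro htop
  have h1 := finrank_span_finset_le_card (R := ℝ) κ
  unfold Set.finrank at h1
  rw [htop, finrank_top, Module.finrank_fin_fun] at h1
  omega

lemma cone_subset_span {d : ℕ} {κ : Finset (Fin d → ℝ)} {x : Fin d → ℝ} (h : x ∈ cone κ) :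
    x ∈ Submodule.span ℝ (κ : Set (Fin d → ℝ)) := by
  obtain ⟨μ, _, rfl⟩ := h
  exact Submodule.sum_mem _ fun v hv => Submodule.smul_mem _ _ (Submodule.subset_span hv)

lemma isOpen_crd_pos {d : ℕ} (σ : Finset (Fin d → ℝ)) :
    IsOpen {x : Fin d → ℝ | ∀ v ∈ σ, 0 < crd σ v x} := by
  have : {x : Fin d → ℝ | ∀ v ∈ σ, 0 < crd σ v x} = ⋂ v ∈ σ, {x | 0 < crd σ v x} := by
    ext x; simp
  rw [this]
  exact isOpen_biInter_finset fun v _ =>
    isOpen_lt continuous_const (LinearMap.continuous_of_finiteDimensional _)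

theorem pkgD (hC : S_C) : S_D := by
  classical
  intro d Φ U hUo hUc hUpos X f hf σ hσ σ' hσ' h1 h2
  -- the small faces
  set T : Finset (Finset (Fin d → ℝ)) :=
    (Φ.facets.biUnion Finset.powerset).filter (fun κ => κ.card + 2 ≤ d) with hT
  have hTmem : ∀ κ, κ ∈ T ↔ (∃ ρ ∈ Φ.facets, κ ⊆ ρ) ∧ κ.card + 2 ≤ d := by
    intro κ
    rw [hT, Finset.mem_filter, Finset.mem_biUnion]
    simp only [Finset.mem_powerset]
  -- choice of `x`
  obtain ⟨x, ⟨hxU, hxσ⟩, hxT⟩ := hC d (T.image fun κ : Finset (Fin d → ℝ) =>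
    Submodule.span ℝ (κ : Set (Fin d → ℝ)))
    (by
      intro S hS
      rw [Finset.mem_image] at hS
      obtain ⟨κ, hκ, rfl⟩ := hS
      have := ((hTmem κ).1 hκ).2
      exact span_ne_top_of_card (by omega))
    (U ∩ {x | ∀ v ∈ σ, 0 < crd σ v x}) (hUo.inter (isOpen_crd_pos σ))
    (by obtain ⟨x, hx, hx'⟩ := h1; exact ⟨x, hx, hx'⟩)
  -- choice of `y`
  obtain ⟨y, ⟨hyU, hyσ⟩, hyT⟩ := hC d
    (T.image fun κ : Finset (Fin d → ℝ) =>
      Submodule.span ℝ ((insert x κ : Finset (Fin d → ℝ)) : Set (Fin d → ℝ)))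
    (by
      intro S hS
      rw [Finset.mem_image] at hS
      obtain ⟨κ, hκ, rfl⟩ := hS
      have h3 := ((hTmem κ).1 hκ).2
      have h4 := Finset.card_insert_le x κ
      exact span_ne_top_of_card (by omega))
    (U ∩ {x | ∀ v ∈ σ', 0 < crd σ' v x}) (hUo.inter (isOpen_crd_pos σ'))
    (by obtain ⟨x, hx, hx'⟩ := h2; exact ⟨x, hx, hx'⟩)
  have hxT' : ∀ κ ∈ T, x ∉ Submodule.span ℝ (κ : Set (Fin d → ℝ)) := fun κ hκ =>
    hxT _ (Finset.mem_image.2 ⟨κ, hκ, rfl⟩)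
  have hyT' : ∀ κ ∈ T, y ∉ Submodule.span ℝ
      ((insert x κ : Finset (Fin d → ℝ)) : Set (Fin d → ℝ)) := fun κ hκ =>
    hyT _ (Finset.mem_image.2 ⟨κ, hκ, rfl⟩)
  -- the segment
  set p : ℝ → (Fin d → ℝ) := fun t => (1 - t) • x + t • y with hp
  have hpc : Continuous p := by
    rw [hp]; fun_prop
  have hpU : ∀ t ∈ Set.Icc (0 : ℝ) 1, p t ∈ U := by
    intro t ht
    exact hUc hxU hyU (by linarith [ht.2]) ht.1 (by ring)
  have hpT : ∀ t : ℝ, ∀ κ ∈ T, p t ∉ Submodule.span ℝ (κ : Set (Fin d → ℝ)) := by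
    intro t κ hκ hmem
    rcases eq_or_ne t 0 with rfl | ht
    · apply hxT' κ hκ
      have : p 0 = x := by simp [hp]
      rwa [this] at hmem
    · apply hyT' κ hκ
      have h3 : y = t⁻¹ • (p t) + (-(t⁻¹ * (1 - t))) • x := by
        rw [hp]
        simp only [smul_add, smul_smul]
        rw [inv_mul_cancel₀ ht, one_smul]
        module
      rw [h3, Finset.coe_insert]
      refine Submodule.add_mem _ (Submodule.smul_mem _ _ ?_) (Submodule.smul_mem _ _ ?_)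
      · exact Submodule.span_mono (Set.subset_insert _ _) hmem
      · exact Submodule.subset_span (Set.mem_insert _ _)
  by_contra hne
  have hclosed : ∀ ρ : Finset (Fin d → ℝ), IsClosed {t : ℝ | ∀ v ∈ ρ, 0 ≤ crd ρ v (p t)} := by
    intro ρ
    have : {t : ℝ | ∀ v ∈ ρ, 0 ≤ crd ρ v (p t)} = ⋂ v ∈ ρ, {t | 0 ≤ crd ρ v (p t)} := by
      ext t; simp
    rw [this]
    exact isClosed_biInter fun v _ =>
      isClosed_le continuous_const ((LinearMap.continuous_of_finiteDimensional _).comp hpc)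
  set A : Set ℝ := ⋃ ρ ∈ Φ.facets.filter (fun ρ => f ρ = f σ), {t : ℝ | ∀ v ∈ ρ, 0 ≤ crd ρ v (p t)}
    with hA
  set B : Set ℝ := ⋃ ρ ∈ Φ.facets.filter (fun ρ => f ρ ≠ f σ), {t : ℝ | ∀ v ∈ ρ, 0 ≤ crd ρ v (p t)}
    with hB
  have hAc : IsClosed A := isClosed_biUnion_finset fun ρ _ => hclosed ρ
  have hBc : IsClosed B := isClosed_biUnion_finset fun ρ _ => hclosed ρ
  have key := isPreconnected_closed_iff.mp (isPreconnected_Icc (a := (0 : ℝ)) (b := 1)) A B hAc hBc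
    (by
      intro t htI
      have hpos : ∀ i, 0 ≤ p t i := by
        intro i
        exact (hUpos (p t) (hpU t htI) i).le
      obtain ⟨ρ, hρ, hρt⟩ := Φ.cover (p t) hpos
      have h3 := (Φ.mem_cone_iff hρ).1 hρt
      by_cases h4 : f ρ = f σ
      · left
        rw [hA, Set.mem_iUnion₂]
        exact ⟨ρ, Finset.mem_filter.2 ⟨hρ, h4⟩, h3⟩
      · right
        rw [hB, Set.mem_iUnion₂]
        exact ⟨ρ, Finset.mem_filter.2 ⟨hρ, h4⟩, h3⟩)
    ⟨0, ⟨le_rfl, zero_le_one⟩, by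
      rw [hA, Set.mem_iUnion₂]
      refine ⟨σ, Finset.mem_filter.2 ⟨hσ, rfl⟩, fun v hv => ?_⟩
      have : p 0 = x := by simp [hp]
      rw [this]
      exact (hxσ v hv).le⟩
    ⟨1, ⟨zero_le_one, le_rfl⟩, by
      rw [hB, Set.mem_iUnion₂]
      refine ⟨σ', Finset.mem_filter.2 ⟨hσ', fun h => hne h.symm⟩, fun v hv => ?_⟩
      have : p 1 = y := by simp [hp]
      rw [this]
      exact (hyσ v hv).le⟩
  obtain ⟨t, ht, htA, htB⟩ := key
  rw [hA, Set.mem_iUnion₂] at htA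
  rw [hB, Set.mem_iUnion₂] at htB
  obtain ⟨ρ, hρ, hρt⟩ := htA
  obtain ⟨ρ', hρ', hρt'⟩ := htB
  rw [Finset.mem_filter] at hρ hρ'
  have h5 : p t ∈ cone ρ := (Φ.mem_cone_iff hρ.1).2 hρt
  have h6 : p t ∈ cone ρ' := (Φ.mem_cone_iff hρ'.1).2 hρt'
  have h7 := cone_subset_span (Φ.inter ρ hρ.1 ρ' hρ'.1 (p t) h5 h6)
  have h8 : d ≤ (ρ ∩ ρ').card + 1 := by
    by_contra h9
    exact hpT t (ρ ∩ ρ') ((hTmem _).2 ⟨⟨ρ, hρ.1, Finset.inter_subset_left⟩, by omega⟩) h7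
  have h9 := hf ρ hρ.1 ρ' hρ'.1 h8 ⟨p t, hpU t ht, h5, h6⟩
  exact hρ'.2 (h9.symm.trans hρ.2)

end Pool.LH12
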