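import Pool.Agent.LH12.Stmts

/-!
# Package A: the first coefficients of the local h-polynomial
-/

namespace Pool.LH12

open Finset Polynomial

lemma carrier_empty {d : ℕ} : carrier (∅ : Finset (Fin d → ℝ)) = ∅ := by
  simp [carrier]

lemma hPoly_eq_sum {d : ℕ} (Δ : Finset (Finset (Fin d → ℝ))) (e : ℕ)
    (h : ∀ F ∈ Δ, F.card ≤ e) :
    hPoly Δ e = ∑ F ∈ Δ, (X : ℤ[X]) ^ F.card * (1 - X) ^ (e - F.card) := by
  unfold hPoly
  have h1 : ∀ F ∈ Δ, F.card ∈ range (e + 1) := fun F hF => by
    rw [mem_range]; have := h F hF; omega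
  rw [← Finset.sum_fiberwise_of_maps_to h1]
  apply Finset.sum_congr rfl
  intro i _
  rw [Finset.sum_congr rfl (g := fun _ => (X : ℤ[X]) ^ i * (1 - X) ^ (e - i))
    (fun F hF => by rw [(mem_filter.1 hF).2])]
  rw [Finset.sum_const, nsmul_eq_mul]
  congr 1

lemma sum_superset {d : ℕ} (s : Finset (Fin d)) (f : ℕ) (hf : f ≤ s.card) :
    ∑ W ∈ (univ : Finset (Finset (Fin d))).filter (fun W => s ⊆ W),
      ((-1 : ℤ[X]) ^ (d - W.card) * (X ^ f * (1 - X) ^ (W.card - f))) =
      (-1) ^ (d - s.card) * (X ^ (d - s.card + f) * (1 - X) ^ (s.card - f)) := by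
  have hsd : s.card ≤ d := by simpa using card_le_univ s
  have h1 : ∑ W ∈ (univ : Finset (Finset (Fin d))).filter (fun W => s ⊆ W),
      ((-1 : ℤ[X]) ^ (d - W.card) * (X ^ f * (1 - X) ^ (W.card - f))) =
      ∑ T ∈ sᶜ.powerset, ((1 - X : ℤ[X]) ^ T.card * (-1) ^ (sᶜ.card - T.card)) *
        (X ^ f * (1 - X) ^ (s.card - f)) := by
    refine Finset.sum_bij' (fun W _ => W \ s) (fun T _ => s ∪ T) ?_ ?_ ?_ ?_ ?_
    · intro W _
      rw [mem_powerset]
      intro x hx
      rw [mem_sdiff] at hx
      rw [mem_compl]
      exact hx.2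
    · intro T _
      rw [mem_filter]
      exact ⟨mem_univ _, subset_union_left⟩
    · intro W hW
      exact union_sdiff_of_subset (mem_filter.1 hW).2
    · intro T hT
      rw [mem_powerset] at hT
      ext x
      simp only [mem_sdiff, mem_union]
      constructor
      · rintro ⟨h | h, h'⟩
        · exact absurd h h'
        · exact h
      · intro h
        exact ⟨Or.inr h, mem_compl.1 (hT h)⟩
    · intro W hW
      have hsW := (mem_filter.1 hW).2
      have hWd : W.card ≤ d := by simpa using card_le_univ W
      have hc := card_le_card hsW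
      have e1 : (W \ s).card = W.card - s.card := card_sdiff_of_subset hsW
      have e2 : sᶜ.card = d - s.card := by rw [card_compl, Fintype.card_fin]
      rw [e1, e2]
      have e3 : d - s.card - (W.card - s.card) = d - W.card := by omega
      have e4 : W.card - f = (W.card - s.card) + (s.card - f) := by omega
      rw [e3, e4, pow_add]
      ring
  rw [h1, ← Finset.sum_mul, Finset.sum_pow_mul_eq_add_pow]
  have e2 : sᶜ.card = d - s.card := by rw [card_compl, Fintype.card_fin]
  have e5 : (1 - X : ℤ[X]) + -1 = (-1) * X := by ring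
  rw [e2, e5, mul_pow, pow_add]
  ring

lemma localH_eq {d : ℕ} (S : GeomSub d)
    (h : ∀ F ∈ S.allFaces, F.card ≤ (carrier F).card) :
    S.localH = ∑ F ∈ S.allFaces, (-1) ^ (d - (carrier F).card) *
      (X ^ (d - (carrier F).card + F.card) * (1 - X) ^ ((carrier F).card - F.card)) := by
  unfold GeomSub.localH
  have h1 : ∀ W : Finset (Fin d), hPoly (S.restr W) W.card =
      ∑ F ∈ S.allFaces, if carrier F ⊆ W then (X : ℤ[X]) ^ F.card * (1 - X) ^ (W.card - F.card)
        else 0 := by
    intro W
    rw [hPoly_eq_sum, GeomSub.restr, Finset.sum_filter]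
    intro F hF
    rw [GeomSub.restr, mem_filter] at hF
    exact (h F hF.1).trans (card_le_card hF.2)
  simp only [h1, Finset.mul_sum]
  rw [Finset.sum_comm]
  apply Finset.sum_congr rfl
  intro F hF
  rw [← sum_superset (carrier F) F.card (h F hF), Finset.sum_filter]
  apply Finset.sum_congr rfl
  intro W _
  split_ifs <;> simp

lemma coeff_zero_pow (k : ℕ) : ((1 - X : ℤ[X]) ^ k).coeff 0 = 1 := by
  rw [Polynomial.coeff_zero_eq_eval_zero]
  simp

lemma coeff_one_pow (k : ℕ) : ((1 - X : ℤ[X]) ^ k).coeff 1 = -(k : ℤ) := by
  induction k with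
  | zero => simp [Polynomial.coeff_one]
  | succ k ih =>
    rw [pow_succ, mul_sub, mul_one, Polynomial.coeff_sub, ih, Polynomial.coeff_mul_X,
      coeff_zero_pow]
    push_cast
    ring

lemma coeff_term (d c f n : ℕ) :
    ((-1 : ℤ[X]) ^ (d - c) * (X ^ (d - c + f) * (1 - X) ^ (c - f))).coeff n =
      (-1) ^ (d - c) * (if d - c + f ≤ n then ((1 - X : ℤ[X]) ^ (c - f)).coeff (n - (d - c + f))
        else 0) := by
  have : (-1 : ℤ[X]) ^ (d - c) = C ((-1) ^ (d - c)) := by simp
  rw [this, Polynomial.coeff_C_mul, Polynomial.coeff_X_pow_mul']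

theorem pkgA : S_A := by
  intro d S h
  have key : ∀ n, S.localH.coeff n = ∑ F ∈ S.allFaces, (-1) ^ (d - (carrier F).card) *
      (if d - (carrier F).card + F.card ≤ n then
        ((1 - X : ℤ[X]) ^ ((carrier F).card - F.card)).coeff
          (n - (d - (carrier F).card + F.card)) else 0) := by
    intro n
    rw [localH_eq S h, Polynomial.finsetSum_coeff]
    exact Finset.sum_congr rfl fun F _ => coeff_term _ _ _ _
  have hcd : ∀ F : Finset (Fin d → ℝ), (carrier F).card ≤ d := fun F => by
    simpa using card_le_univ (carrier F)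
  have hu : ∀ F : Finset (Fin d → ℝ), carrier F = univ ↔ (carrier F).card = d := fun F => by
    rw [← Finset.card_eq_iff_eq_univ, Fintype.card_fin]
  have h0 : ∀ F : Finset (Fin d → ℝ), F.card = 0 → (carrier F).card = 0 := fun F hF => by
    rw [Finset.card_eq_zero] at hF
    rw [hF, carrier_empty, Finset.card_empty]
  refine ⟨fun hd => ?_, fun hd => ?_, fun hd => ?_⟩
  · rw [key]
    apply Finset.sum_eq_zero
    intro F hF
    rw [if_neg, mul_zero]
    have := h0 F
    omega
  · rw [key, Finset.card_filter]
    push_cast
    apply Finset.sum_congr rfl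
    intro F hF
    have a1 := h0 F
    have a2 := h F hF
    have a3 := hcd F
    simp only [hu F]
    by_cases hc : F.card = 1 ∧ (carrier F).card = d
    · rw [if_pos hc, if_pos (by omega)]
      have e1 : d - (carrier F).card = 0 := by omega
      have e2 : 1 - (d - (carrier F).card + F.card) = 0 := by omega
      rw [e2, coeff_zero_pow, e1]
      simp
    · rw [if_neg hc]
      by_cases hle : d - (carrier F).card + F.card ≤ 1
      · exfalso
        omega
      · rw [if_neg hle, mul_zero]
  · have e : ∀ F ∈ S.allFaces, (-1 : ℤ) ^ (d - (carrier F).card) *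
        (if d - (carrier F).card + F.card ≤ 2 then
          ((1 - X : ℤ[X]) ^ ((carrier F).card - F.card)).coeff
            (2 - (d - (carrier F).card + F.card)) else 0) =
        (if F.card = 2 ∧ carrier F = univ then (1 : ℤ) else 0)
        - ((d : ℤ) - 1) * (if F.card = 1 ∧ carrier F = univ then (1 : ℤ) else 0)
        - (if F.card = 1 ∧ (carrier F).card + 1 = d then (1 : ℤ) else 0) := by
      intro F hF
      have a1 := h0 F
      have a2 := h F hF
      have a3 := hcd F
      simp only [hu F]
      by_cases c1 : F.card = 2 ∧ (carrier F).card = d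
      · rw [if_pos c1, if_pos (by omega), if_neg (by omega), if_neg (by omega)]
        have e1 : d - (carrier F).card = 0 := by omega
        have e2 : 2 - (d - (carrier F).card + F.card) = 0 := by omega
        rw [e2, coeff_zero_pow, e1]
        simp
      · by_cases c2 : F.card = 1 ∧ (carrier F).card = d
        · rw [if_neg c1, if_pos c2, if_neg (by omega : ¬ (F.card = 1 ∧ (carrier F).card + 1 = d)),
            if_pos (by omega)]
          have e1 : d - (carrier F).card = 0 := by omega
          have e2 : 2 - (d - (carrier F).card + F.card) = 1 := by omega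
          have e3 : (carrier F).card - F.card = d - 1 := by omega
          rw [e2, e3, coeff_one_pow, e1, Nat.cast_sub (by omega)]
          simp
        · by_cases c3 : F.card = 1 ∧ (carrier F).card + 1 = d
          · rw [if_neg c1, if_neg c2, if_pos c3, if_pos (by omega)]
            have e1 : d - (carrier F).card = 1 := by omega
            have e2 : 2 - (d - (carrier F).card + F.card) = 0 := by omega
            rw [e2, coeff_zero_pow, e1]
            simp
          · rw [if_neg c1, if_neg c2, if_neg c3]
            by_cases hle : d - (carrier F).card + F.card ≤ 2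
            · exfalso
              omega
            · rw [if_neg hle]
              simp
    rw [key, Finset.sum_congr rfl e, Finset.sum_sub_distrib, Finset.sum_sub_distrib,
      ← Finset.mul_sum]
    simp only [Finset.card_filter]
    push_cast
    rfl

end Pool.LH12
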