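import Pool.Agent.LH12.Basic

/-!
# Geometric subdivisions of the simplex and the local h-polynomial

A geometric subdivision of the simplex on `V = Fin d` is a finite triangulation `K` of the
standard simplex of `ℝ^d`.  The carrier of a face is the set of the coordinates which do not
vanish identically on it.
-/

namespace Pool.LH12

open Finset Polynomial

/-- The carrier of a face `F`: the vertex set of the smallest face of the standard simplex which
contains `F`. -/
noncomputable def carrier {d : ℕ} (F : Finset (Fin d → ℝ)) : Finset (Fin d) :=
  univ.filter (fun i => ∃ v ∈ F, v i ≠ 0)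

/-- A geometric subdivision of the simplex with `d` vertices: a finite geometric simplicial complex
whose underlying space is the standard simplex. -/
structure GeomSub (d : ℕ) where
  K : Geometry.SimplicialComplex ℝ (Fin d → ℝ)
  fin : K.faces.Finite
  space : K.space = stdSimplex ℝ (Fin d)

namespace GeomSub

variable {d : ℕ} (S : GeomSub d)

/-- All faces, including the empty face. -/
noncomputable def allFaces : Finset (Finset (Fin d → ℝ)) := insert ∅ S.fin.toFinset

/-- The restriction of the subdivision to the face of the simplex spanned by `W`. -/
noncomputable def restr (W : Finset (Fin d)) : Finset (Finset (Fin d → ℝ)) :=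
  S.allFaces.filter (fun F => carrier F ⊆ W)

end GeomSub

/-- The h-polynomial `∑ f_{i-1} x^i (1-x)^(e-i)` of a simplicial complex of dimension `e - 1`, given
by its set of faces (with the empty face); `f_{i-1}` is the number of faces with `i` vertices. -/
noncomputable def hPoly {d : ℕ} (Δ : Finset (Finset (Fin d → ℝ))) (e : ℕ) : ℤ[X] :=
  ∑ i ∈ range (e + 1),
    C (((Δ.filter (fun F => F.card = i)).card : ℕ) : ℤ) * (X ^ i * (1 - X) ^ (e - i))

/-- The local h-polynomial: the alternating sum of the h-polynomials of the restrictions. -/
noncomputable def GeomSub.localH {d : ℕ} (S : GeomSub d) : ℤ[X] :=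
  ∑ W : Finset (Fin d), (-1) ^ (d - W.card) * hPoly (S.restr W) W.card

end Pool.LH12
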