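import Pool.Agent.LH12.Stmts

/-!
# The fan of a geometric subdivision
-/

namespace Pool.LH12

open Finset

lemma sum_coord {d : ℕ} {F : Finset (Fin d → ℝ)} (hF : ∀ v ∈ F, ∑ i, v i = 1)
    (μ : (Fin d → ℝ) → ℝ) : ∑ i, (∑ v ∈ F, μ v • v) i = ∑ v ∈ F, μ v := by
  simp only [Finset.sum_apply, Pi.smul_apply, smul_eq_mul]
  rw [Finset.sum_comm]
  apply Finset.sum_congr rfl
  intro v hv
  rw [← Finset.mul_sum, hF v hv, mul_one]

lemma smul_mem_cone {d : ℕ} {F : Finset (Fin d → ℝ)} {y : Fin d → ℝ} {c : ℝ} (hc : 0 ≤ c)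
    (hy : y ∈ convexHull ℝ (F : Set (Fin d → ℝ))) : c • y ∈ cone F := by
  rw [Finset.mem_convexHull'] at hy
  obtain ⟨w, hw0, _, rfl⟩ := hy
  refine ⟨fun v => c * w v, fun v hv => mul_nonneg hc (hw0 v hv), ?_⟩
  rw [Finset.smul_sum]
  simp only [mul_smul]

lemma hull_of_cone {d : ℕ} {F : Finset (Fin d → ℝ)} (hF : ∀ v ∈ F, ∑ i, v i = 1)
    {x : Fin d → ℝ} (hx : x ∈ cone F) {s : ℝ} (hs : ∑ i, x i = s) (hpos : 0 < s) :
    s⁻¹ • x ∈ convexHull ℝ (F : Set (Fin d → ℝ)) := by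
  obtain ⟨μ, hμ, rfl⟩ := hx
  rw [sum_coord hF] at hs
  rw [Finset.mem_convexHull']
  refine ⟨fun v => s⁻¹ * μ v, fun v hv => mul_nonneg (inv_nonneg.2 hpos.le) (hμ v hv), ?_, ?_⟩
  · rw [← Finset.mul_sum, hs, inv_mul_cancel₀ hpos.ne']
  · rw [Finset.smul_sum]
    simp only [mul_smul]

lemma cone_sum_nonneg {d : ℕ} {F : Finset (Fin d → ℝ)} (hF : ∀ v ∈ F, ∑ i, v i = 1)
    {x : Fin d → ℝ} (hx : x ∈ cone F) : 0 ≤ ∑ i, x i := by
  obtain ⟨μ, hμ, rfl⟩ := hx
  rw [sum_coord hF]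
  exact Finset.sum_nonneg hμ

lemma cone_eq_zero {d : ℕ} {F : Finset (Fin d → ℝ)} (hF : ∀ v ∈ F, ∑ i, v i = 1)
    {x : Fin d → ℝ} (hx : x ∈ cone F) (h0 : ∑ i, x i = 0) : x = 0 := by
  obtain ⟨μ, hμ, rfl⟩ := hx
  rw [sum_coord hF] at h0
  have h1 := (Finset.sum_eq_zero_iff_of_nonneg hμ).1 h0
  apply Finset.sum_eq_zero
  intro v hv
  rw [h1 v hv, zero_smul]

lemma isClosed_cone {d : ℕ} {F : Finset (Fin d → ℝ)} (hc : F.card = d)
    (hi : LinearIndependent ℝ (fun v : F => (v : Fin d → ℝ))) : IsClosed (cone F) := by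
  have h1 : cone F = ⋂ v ∈ F, {x | 0 ≤ crd F v x} := by
    ext x
    simp only [Set.mem_iInter, Set.mem_ofPred_eq]
    constructor
    · rintro ⟨μ, hμ, rfl⟩ v hv
      rw [crd_sum hc hi μ (Finset.Subset.refl F) hv, if_pos hv]
      exact hμ v hv
    · intro h
      exact ⟨fun v => crd F v x, h, (sum_crd_smul hc hi x).symm⟩
  rw [h1]
  exact isClosed_biInter fun v _ =>
    isClosed_le continuous_const (LinearMap.continuous_of_finiteDimensional _)

namespace GeomSub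

variable {d : ℕ} (S : GeomSub d)

lemma mem_simplex {F : Finset (Fin d → ℝ)} (hF : F ∈ S.K.faces) {v : Fin d → ℝ} (hv : v ∈ F) :
    (∀ i, 0 ≤ v i) ∧ ∑ i, v i = 1 := by
  have h1 : v ∈ S.K.space := S.K.subset_space hF hv
  rw [S.space] at h1
  exact h1

lemma face_indep {F : Finset (Fin d → ℝ)} (hF : F ∈ S.K.faces) :
    LinearIndependent ℝ (fun v : F => (v : Fin d → ℝ)) := by
  rw [linearIndependent_iff']
  intro s g hg
  have h0 : ∑ v ∈ s, g v = 0 := by
    have h := congrArg (fun x : Fin d → ℝ => ∑ i, x i) hg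
    simp only [Finset.sum_apply, Pi.smul_apply, smul_eq_mul, Pi.zero_apply,
      Finset.sum_const_zero] at h
    rw [Finset.sum_comm] at h
    rw [← h]
    apply Finset.sum_congr rfl
    intro v _
    rw [← Finset.mul_sum, (S.mem_simplex hF v.2).2, mul_one]
  exact (affineIndependent_iff.1 (S.K.indep hF)) s g h0 hg

lemma face_card_le {F : Finset (Fin d → ℝ)} (hF : F ∈ S.K.faces) : F.card ≤ d := by
  have h := (S.face_indep hF).fintype_card_le_finrank
  simpa using h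

lemma inter_cone {F G : Finset (Fin d → ℝ)} (hF : F ∈ S.K.faces) (hG : G ∈ S.K.faces)
    {x : Fin d → ℝ} (hxF : x ∈ cone F) (hxG : x ∈ cone G) : x ∈ cone (F ∩ G) := by
  have hF1 : ∀ v ∈ F, ∑ i, v i = 1 := fun v hv => (S.mem_simplex hF hv).2
  have hG1 : ∀ v ∈ G, ∑ i, v i = 1 := fun v hv => (S.mem_simplex hG hv).2
  rcases (cone_sum_nonneg hF1 hxF).eq_or_lt with h0 | hpos
  · have hx0 := cone_eq_zero hF1 hxF h0.symm
    exact ⟨fun _ => 0, fun _ _ => le_rfl, by simp [hx0]⟩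
  · have h1 := hull_of_cone hF1 hxF rfl hpos
    have h2 := hull_of_cone hG1 hxG rfl hpos
    have h3 := S.K.inter_subset_convexHull hF hG ⟨h1, h2⟩
    rw [← Finset.coe_inter] at h3
    have h4 := smul_mem_cone hpos.le h3
    rwa [smul_smul, mul_inv_cancel₀ hpos.ne', one_smul] at h4

lemma exists_cover (hC : S_C) (hd : 1 ≤ d) (x : Fin d → ℝ) (hx : ∀ i, 0 ≤ x i) :
    ∃ σ ∈ S.K.faces, σ.card = d ∧ x ∈ cone σ := by
  classical
  by_contra hcon
  have hCc : IsClosed (⋃ F ∈ {F | F ∈ S.K.faces ∧ F.card = d}, cone F) := by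
    apply Set.Finite.isClosed_biUnion
    · exact S.fin.subset fun F hF => hF.1
    · intro F hF
      exact isClosed_cone hF.2 (S.face_indep hF.1)
  have hxC : x ∈ (⋃ F ∈ {F | F ∈ S.K.faces ∧ F.card = d}, cone F)ᶜ := by
    intro h
    simp only [Set.mem_iUnion, Set.mem_ofPred_eq] at h
    obtain ⟨F, ⟨hF, hFc⟩, hxF⟩ := h
    exact hcon ⟨F, hF, hFc, hxF⟩
  have hpos : IsOpen {y : Fin d → ℝ | ∀ i, 0 < y i} := by
    simp only [Set.ofPred_forall]
    exact isOpen_iInter_of_finite fun i => isOpen_lt continuous_const (continuous_apply i)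
  have hne : ((⋃ F ∈ {F | F ∈ S.K.faces ∧ F.card = d}, cone F)ᶜ ∩
      {y : Fin d → ℝ | ∀ i, 0 < y i}).Nonempty := by
    obtain ⟨ε, hε, hball⟩ := Metric.isOpen_iff.1 hCc.isOpen_compl x hxC
    refine ⟨fun i => x i + ε / 2, hball ?_, fun i => ?_⟩
    · rw [Metric.mem_ball, dist_pi_lt_iff hε]
      intro i
      rw [Real.dist_eq]
      have h1 : x i + ε / 2 - x i = ε / 2 := by ring
      rw [h1, abs_of_pos (by linarith)]
      linarith
    · have := hx i
      show 0 < x i + ε / 2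
      linarith
  obtain ⟨y, ⟨hyC, hyp⟩, hy⟩ := hC d
    ((S.fin.toFinset.filter (fun F => F.card < d)).image
      (fun F : Finset (Fin d → ℝ) => Submodule.span ℝ (F : Set (Fin d → ℝ)))) (by
      intro W hW htop
      rw [Finset.mem_image] at hW
      obtain ⟨F, hF, rfl⟩ := hW
      rw [Finset.mem_filter] at hF
      have h1 := finrank_span_finset_le_card (R := ℝ) F
      rw [Set.finrank, htop, finrank_top] at h1
      have h2 : Module.finrank ℝ (Fin d → ℝ) = d := by simp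
      omega) _ (hCc.isOpen_compl.inter hpos) hne
  have hsum : 0 < ∑ i, y i := Finset.sum_pos (fun i _ => hyp i) ⟨⟨0, hd⟩, Finset.mem_univ _⟩
  have hmem : (∑ i, y i)⁻¹ • y ∈ S.K.space := by
    rw [S.space]
    refine ⟨fun i => ?_, ?_⟩
    · exact mul_nonneg (inv_nonneg.2 hsum.le) (hyp i).le
    · simp only [Pi.smul_apply, smul_eq_mul]
      rw [← Finset.mul_sum, inv_mul_cancel₀ hsum.ne']
  rw [Geometry.SimplicialComplex.mem_space_iff] at hmem
  obtain ⟨F, hF, hyF⟩ := hmem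
  have hyc : y ∈ cone F := by
    have h := smul_mem_cone hsum.le hyF
    rwa [smul_smul, mul_inv_cancel₀ hsum.ne', one_smul] at h
  rcases lt_or_eq_of_le (S.face_card_le hF) with h | h
  · apply hy (Submodule.span ℝ (F : Set (Fin d → ℝ)))
    · rw [Finset.mem_image]
      exact ⟨F, by simp [hF, h], rfl⟩
    · obtain ⟨μ, _, rfl⟩ := hyc
      exact Submodule.sum_mem _ fun v hv => Submodule.smul_mem _ _ (Submodule.subset_span hv)
  · apply hyC
    simp only [Set.mem_iUnion, Set.mem_ofPred_eq]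
    exact ⟨F, ⟨hF, h⟩, hyc⟩

end GeomSub

theorem pkgB (hC : S_C) : S_B := by
  intro d hd S
  have hmem : ∀ σ, σ ∈ S.fin.toFinset.filter (fun F => F.card = d) ↔
      σ ∈ S.K.faces ∧ σ.card = d := by
    intro σ
    simp
  refine ⟨⟨S.fin.toFinset.filter (fun F => F.card = d), fun σ h => ((hmem σ).1 h).2,
    fun σ h => S.face_indep ((hmem σ).1 h).1,
    fun σ h v hv => (S.mem_simplex ((hmem σ).1 h).1 hv).1,
    fun σ h v hv => (S.mem_simplex ((hmem σ).1 h).1 hv).2,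
    fun x hx => ?_,
    fun σ h τ h' x hx hx' => S.inter_cone ((hmem σ).1 h).1 ((hmem τ).1 h').1 hx hx'⟩, ?_⟩
  · obtain ⟨σ, hσ, hσc, hx'⟩ := S.exists_cover hC hd x hx
    exact ⟨σ, (hmem σ).2 ⟨hσ, hσc⟩, hx'⟩
  · intro F
    constructor
    · intro hF
      refine ⟨Geometry.SimplicialComplex.nonempty_of_mem_faces hF, ?_⟩
      obtain ⟨σ, hσ, hσc, hx⟩ := S.exists_cover hC hd (∑ v ∈ F, v) (fun i => by
        rw [Finset.sum_apply]
        exact Finset.sum_nonneg fun v hv => (S.mem_simplex hF hv).1 i)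
      refine ⟨σ, (hmem σ).2 ⟨hσ, hσc⟩, ?_⟩
      have hxF : (∑ v ∈ F, v) ∈ cone F := ⟨fun _ => 1, fun _ _ => zero_le_one, by simp⟩
      obtain ⟨μ, _, hμ⟩ := S.inter_cone hF hσ hxF hx
      intro v hv
      by_contra hvσ
      have hzero : ∑ u ∈ F, ((if u ∈ σ then μ u else 0) - 1) • u = 0 := by
        simp only [sub_smul, one_smul, Finset.sum_sub_distrib, ite_smul, zero_smul]
        rw [sub_eq_zero, hμ, ← Finset.sum_filter, Finset.filter_mem_eq_inter]
      rw [← Finset.sum_attach] at hzero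
      have h1 := Fintype.linearIndependent_iff.1 (S.face_indep hF)
        (fun u => (if (u : Fin d → ℝ) ∈ σ then μ u else 0) - 1) hzero ⟨v, hv⟩
      simp [hvσ] at h1
    · rintro ⟨hne, σ, hσ, hFσ⟩
      exact S.K.down_closed ((hmem σ).1 hσ).1 hFσ hne

end Pool.LH12
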