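import Pool.Agent.LH12.Main

/-!
# `l_1 ≤ l_2` for the local h-vector of every geometric subdivision

The local h-vector of a geometric subdivision of a simplex with at least four vertices satisfies
`l_1 ≤ l_2`; with at most five vertices it is unimodal.
-/

namespace Pool.LH12.FirstStep

open Pool.LH12

theorem result :
    (∀ d : ℕ, 4 ≤ d → ∀ S : GeomSub d, S.localH.coeff 1 ≤ S.localH.coeff 2) ∧
    (∀ d : ℕ, d ≤ 5 → ∀ S : GeomSub d, ∀ i : ℕ, i < d / 2 →
      S.localH.coeff i ≤ S.localH.coeff (i + 1)) :=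
  ⟨fun _ hd S => main_le hd S, fun _ hd S i hi => unimodal_le_five hd S i hi⟩

end Pool.LH12.FirstStep
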