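import Pool.Agent.LH12.Stmts

/-!
# The flat case: a skew piecewise linear vector field vanishes
-/

namespace Pool.LH12

open Finset

variable {d : ℕ}

lemma pl_vert (Φ : Fan d) {σ : Finset (Fin d → ℝ)} (hσ : σ ∈ Φ.facets)
    (g : (Fin d → ℝ) → (Fin d → ℝ)) {v : Fin d → ℝ} (hv : v ∈ σ) : pl σ g v = g v := by
  unfold pl
  rw [Finset.sum_eq_single v]
  · rw [Φ.crd_self hσ hv hv, if_pos rfl, one_smul]
  · intro u hu huv
    rw [Φ.crd_self hσ hv hu, if_neg (Ne.symm huv), zero_smul]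
  · intro h; exact absurd hv h

lemma pl_sum_smul {σ : Finset (Fin d → ℝ)} (g : (Fin d → ℝ) → (Fin d → ℝ))
    {ι : Type*} (s : Finset ι) (c : ι → ℝ) (x : ι → (Fin d → ℝ)) :
    pl σ g (∑ j ∈ s, c j • x j) = ∑ j ∈ s, c j • pl σ g (x j) := by
  unfold pl
  simp_rw [map_sum, map_smul, Finset.sum_smul, Finset.smul_sum]
  rw [Finset.sum_comm]
  apply Finset.sum_congr rfl
  intro j _
  apply Finset.sum_congr rfl
  intro v _
  rw [smul_eq_mul, smul_smul]

lemma dot_pl {σ : Finset (Fin d → ℝ)} (g : (Fin d → ℝ) → (Fin d → ℝ)) (x y : Fin d → ℝ) :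
    pl σ g x ⬝ᵥ y = ∑ v ∈ σ, crd σ v x * (g v ⬝ᵥ y) := by
  unfold pl
  rw [sum_dotProduct]
  apply Finset.sum_congr rfl
  intro v _
  rw [smul_dotProduct, smul_eq_mul]

/-- Skewness of the pieces. -/
lemma skew_pl (Φ : Fan d) {σ : Finset (Fin d → ℝ)} (hσ : σ ∈ Φ.facets)
    (g : (Fin d → ℝ) → (Fin d → ℝ))
    (hg : ∀ v ∈ σ, ∀ u ∈ σ, g v ⬝ᵥ u + g u ⬝ᵥ v = 0) (x y : Fin d → ℝ) :
    pl σ g x ⬝ᵥ y = - (pl σ g y ⬝ᵥ x) := by
  have h1 : ∀ x y : Fin d → ℝ, pl σ g x ⬝ᵥ y =
      ∑ v ∈ σ, ∑ u ∈ σ, crd σ v x * (crd σ u y * (g v ⬝ᵥ u)) := by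
    intro x y
    rw [dot_pl]
    apply Finset.sum_congr rfl
    intro v _
    rw [← Finset.mul_sum]
    congr 1
    conv_lhs => rw [← Φ.sum_crd hσ y]
    rw [dotProduct_sum]
    apply Finset.sum_congr rfl
    intro u _
    rw [dotProduct_smul, smul_eq_mul]
  rw [h1 x y, h1 y x, Finset.sum_comm, ← Finset.sum_neg_distrib]
  apply Finset.sum_congr rfl
  intro v hv
  rw [← Finset.sum_neg_distrib]
  apply Finset.sum_congr rfl
  intro u hu
  have := hg v hv u hu
  have h2 : g u ⬝ᵥ v = - (g v ⬝ᵥ u) := by linarith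
  rw [h2]
  ring

theorem pkgL (hD : S_D) : S_L := by
  classical
  intro d Φ hd g hg0 hg1 v hv
  have hg : ∀ σ ∈ Φ.facets, ∀ v ∈ σ, ∀ u ∈ σ, g v ⬝ᵥ u + g u ⬝ᵥ v = 0 := by
    intro σ hσ v hv u hu
    have := hg0 σ hσ v hv u hu
    simpa [dotProduct] using this
  -- equality of the pieces at walls
  have hwall : ∀ ρ ∈ Φ.facets, ∀ ρ' ∈ Φ.facets, d ≤ (ρ ∩ ρ').card + 1 →
      pl ρ g = pl ρ' g := by
    intro ρ hρ ρ' hρ' hcard
    have hN : ∀ a ∈ ρ, pl ρ g a - pl ρ' g a = 0 := by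
      intro a ha
      by_cases ha' : a ∈ ρ'
      · rw [pl_vert Φ hρ g ha, pl_vert Φ hρ' g ha', sub_self]
      · have hother : ∀ u ∈ ρ, u ≠ a → u ∈ ρ' := by
          intro u hu hua
          by_contra hu'
          have h1 : ({u, a} : Finset (Fin d → ℝ)) ⊆ ρ \ ρ' := by
            intro x hx
            rw [Finset.mem_insert, Finset.mem_singleton] at hx
            rw [Finset.mem_sdiff]
            rcases hx with h | h <;> subst h
            · exact ⟨hu, hu'⟩
            · exact ⟨ha, ha'⟩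
          have h2 := Finset.card_le_card h1
          rw [Finset.card_pair hua] at h2
          have h3 := Finset.card_sdiff_add_card_inter ρ ρ'
          rw [Φ.card ρ hρ] at h3
          omega
        have horth : ∀ u ∈ ρ, (pl ρ g a - pl ρ' g a) ⬝ᵥ u = 0 := by
          intro u hu
          rw [sub_dotProduct, skew_pl Φ hρ g (hg ρ hρ) a u, skew_pl Φ hρ' g (hg ρ' hρ') a u]
          by_cases hua : u = a
          · subst hua
            have h1 := skew_pl Φ hρ g (hg ρ hρ) u u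
            have h2 := skew_pl Φ hρ' g (hg ρ' hρ') u u
            linarith
          · rw [pl_vert Φ hρ g hu, pl_vert Φ hρ' g (hother u hu hua)]
            ring
        have hall : ∀ y : Fin d → ℝ, (pl ρ g a - pl ρ' g a) ⬝ᵥ y = 0 := by
          intro y
          conv_lhs => rw [← Φ.sum_crd hρ y]
          rw [dotProduct_sum]
          apply Finset.sum_eq_zero
          intro u hu
          rw [dotProduct_smul, horth u hu, smul_zero]
        exact dotProduct_self_eq_zero.1 (hall _)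
    funext x
    conv_lhs => rw [← Φ.sum_crd hρ x]
    conv_rhs => rw [← Φ.sum_crd hρ x]
    rw [pl_sum_smul, pl_sum_smul]
    apply Finset.sum_congr rfl
    intro u hu
    rw [sub_eq_zero.1 (hN u hu)]
  -- the open orthant
  have hopen : IsOpen {x : Fin d → ℝ | ∀ i, 0 < x i} := by
    have : {x : Fin d → ℝ | ∀ i, 0 < x i} = ⋂ i, {x : Fin d → ℝ | 0 < x i} := by
      ext x; simp
    rw [this]
    apply isOpen_iInter_of_finite
    intro i
    exact isOpen_lt continuous_const (continuous_apply i)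
  have hconv : Convex ℝ {x : Fin d → ℝ | ∀ i, 0 < x i} := by
    intro x hx y hy a b ha hb hab i
    have h1 : 0 < x i := hx i
    have h2 : 0 < y i := hy i
    simp only [Pi.add_apply, Pi.smul_apply, smul_eq_mul]
    rcases eq_or_lt_of_le ha with h | h
    · subst h
      have hb1 : b = 1 := by linarith
      subst hb1
      simpa using h2
    · have h3 := mul_pos h h1
      have h4 := mul_nonneg hb h2.le
      linarith
  have hcenter : ∀ σ ∈ Φ.facets, ∃ x ∈ {x : Fin d → ℝ | ∀ i, 0 < x i},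
      ∀ v ∈ σ, 0 < crd σ v x := by
    intro σ hσ
    refine ⟨∑ v ∈ σ, v, ?_, ?_⟩
    · intro i
      rw [Finset.sum_apply]
      apply lt_of_le_of_ne (Finset.sum_nonneg fun v hv => Φ.nonneg σ hσ v hv i)
      intro h
      have h1 := (Finset.sum_eq_zero_iff_of_nonneg (fun v hv => Φ.nonneg σ hσ v hv i)).1 h.symm
      have h2 := congrFun (Φ.sum_crd hσ (Pi.single i 1)) i
      rw [Finset.sum_apply, Finset.sum_eq_zero] at h2
      · simp at h2
      · intro v hv
        rw [Pi.smul_apply, h1 v hv, smul_zero]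
    · intro v hv
      have := Φ.crd_comb hσ (fun _ => 1) (Finset.Subset.refl σ) hv
      simp only [one_smul, if_pos hv] at this
      rw [this]
      norm_num
  have hD' := hD d Φ {x : Fin d → ℝ | ∀ i, 0 < x i} hopen hconv (fun x hx => hx)
    ((Fin d → ℝ) → (Fin d → ℝ)) (fun σ => pl σ g)
    (fun ρ hρ ρ' hρ' hc _ => hwall ρ hρ ρ' hρ' hc)
  have hconst : ∀ σ ∈ Φ.facets, ∀ σ' ∈ Φ.facets, pl σ g = pl σ' g :=
    fun σ hσ σ' hσ' => hD' σ hσ σ' hσ' (hcenter σ hσ) (hcenter σ' hσ')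
  have hbase : ∀ σ ∈ Φ.facets, ∀ i : Fin d, pl σ g (Pi.single i 1) = 0 := by
    intro σ hσ i
    obtain ⟨ρ, hρ, hi⟩ := Φ.cover (Pi.single i 1) (by
      intro j
      by_cases h : j = i
      · subst h; simp
      · simp [h])
    rw [hconst σ hσ ρ hρ]
    obtain ⟨μ, hμ, hx⟩ := hi
    have hsum : ∑ v ∈ ρ, μ v = 1 := by
      have h1 : ∑ j, (Pi.single i (1:ℝ) : Fin d → ℝ) j = 1 := by simp
      rw [hx] at h1
      simp only [Finset.sum_apply, Pi.smul_apply, smul_eq_mul] at h1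
      rw [Finset.sum_comm] at h1
      rw [← h1]
      apply Finset.sum_congr rfl
      intro v hv
      rw [← Finset.mul_sum, Φ.sum_one ρ hρ v hv, mul_one]
    obtain ⟨v, hvρ, hvμ⟩ : ∃ v ∈ ρ, μ v ≠ 0 := by
      by_contra h
      push Not at h
      rw [Finset.sum_eq_zero h] at hsum
      norm_num at hsum
    have hvi : v = Pi.single i 1 := by
      have hz : ∀ j, j ≠ i → v j = 0 := by
        intro j hj
        have h1 := congrFun hx j
        rw [Pi.single_apply, if_neg hj] at h1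
        simp only [Finset.sum_apply, Pi.smul_apply, smul_eq_mul] at h1
        have h2 := (Finset.sum_eq_zero_iff_of_nonneg (fun u hu =>
          mul_nonneg (hμ u hu) (Φ.nonneg ρ hρ u hu j))).1 h1.symm v hvρ
        rcases mul_eq_zero.1 h2 with h | h
        · exact absurd h hvμ
        · exact h
      have h1 := Φ.sum_one ρ hρ v hvρ
      rw [Finset.sum_eq_single i (fun j _ hj => hz j hj) (by simp)] at h1
      funext j
      by_cases hj : j = i
      · subst hj; simp [h1]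
      · rw [hz j hj]; simp [hj]
    rw [hvi] at hvρ
    rw [pl_vert Φ hρ g hvρ]
    exact hg1 i
  unfold Fan.verts at hv
  rw [Finset.mem_biUnion] at hv
  obtain ⟨σ, hσ, hvσ⟩ := hv
  rw [← pl_vert Φ hσ g hvσ]
  have h1 : v = ∑ i, v i • (Pi.single i (1:ℝ) : Fin d → ℝ) := by
    funext j
    simp [Finset.sum_apply, Pi.single_apply]
  rw [h1, pl_sum_smul]
  apply Finset.sum_eq_zero
  intro i _
  rw [hbase σ hσ i, smul_zero]

end Pool.LH12
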