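import Pool.Agent.LH12.Stmts

/-!
# The derivative trick

From a polynomial solution of the rigidity equations we deduce that the piecewise linear function
`s` is linear on the star of every codimension 2 face with an interior vertex.
-/

namespace Pool.LH12

open Finset

variable {d : ℕ} (Φ : Fan d)

/-- The generic height function. -/
noncomputable def hgt (v : Fin d → ℝ) : MvPolynomial Φ.verts ℝ :=
  open Classical in if h : v ∈ Φ.verts then MvPolynomial.X ⟨v, h⟩ else 0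

lemma hgt_mem {v : Fin d → ℝ} (h : v ∈ Φ.verts) : hgt Φ v = MvPolynomial.X ⟨v, h⟩ := by
  unfold hgt
  rw [dif_pos h]

lemma subset_verts {σ : Finset (Fin d → ℝ)} (hσ : σ ∈ Φ.facets) : σ ⊆ Φ.verts := by
  intro v hv
  unfold Fan.verts
  rw [Finset.mem_biUnion]
  exact ⟨σ, hσ, hv⟩

lemma pl_expand {A : Type*} [AddCommGroup A] [Module ℝ A] {σ : Finset (Fin d → ℝ)}
    (hσ : σ ∈ Φ.facets) (p : (Fin d → ℝ) → A) (x : Fin d → ℝ) :
    pl σ p x = ∑ v ∈ Φ.verts, crd σ v x • p v := by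
  unfold pl
  apply Finset.sum_subset (subset_verts Φ hσ)
  intro v _ hv
  rw [crd_of_notMem hv]
  simp

lemma pl_single [DecidableEq (Fin d → ℝ)] (σ : Finset (Fin d → ℝ)) (u : Fin d → ℝ)
    (x : Fin d → ℝ) : pl σ (Pi.single u (1 : ℝ)) x = crd σ u x := by
  unfold pl
  by_cases hu : u ∈ σ
  · rw [Finset.sum_eq_single u]
    · simp
    · intro b _ hb
      simp [Pi.single_apply, hb]
    · intro h
      exact absurd hu h
  · rw [crd_of_notMem hu]
    simp only [LinearMap.zero_apply]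
    apply Finset.sum_eq_zero
    intro v hv
    have : v ≠ u := by
      rintro rfl
      exact hu hv
    simp [Pi.single_apply, this]

/-- The localisation functional over an algebra. -/
lemma TR (hG : S_G) {w : Finset (Fin d → ℝ) → ℝ} (hw : IsWeight w)
    {F : Finset (Fin d → ℝ)} (hF : F.card + 3 = d) (hint : ∃ v ∈ F, IsInt v)
    {ξ : Fin d → ℝ} (hξ : Φ.Generic ξ) {R : Type*} [CommRing R] [Algebra ℝ R]
    (p q : (Fin d → ℝ) → R) :
    ∑ σ ∈ Φ.facets.filter (fun σ => F ⊆ σ),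
      (w σ * ∏ v ∈ σ \ F, crd σ v ξ)⁻¹ • (pl σ p ξ * pl σ q ξ) = 0 := by
  classical
  have h1 : ∀ σ ∈ Φ.facets.filter (fun σ => F ⊆ σ),
      (w σ * ∏ v ∈ σ \ F, crd σ v ξ)⁻¹ • (pl σ p ξ * pl σ q ξ)
      = ∑ u ∈ Φ.verts, ∑ v ∈ Φ.verts, ((w σ * ∏ v ∈ σ \ F, crd σ v ξ)⁻¹ *
          (pl σ (Pi.single u (1 : ℝ)) ξ * pl σ (Pi.single v (1 : ℝ)) ξ)) • (p u * q v) := by
    intro σ hσ
    rw [Finset.mem_filter] at hσ
    rw [pl_expand Φ hσ.1 p, pl_expand Φ hσ.1 q, Finset.sum_mul_sum, Finset.smul_sum]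
    apply Finset.sum_congr rfl
    intro u _
    rw [Finset.smul_sum]
    apply Finset.sum_congr rfl
    intro v _
    rw [pl_single, pl_single, mul_smul, smul_mul_smul_comm]
  rw [Finset.sum_congr rfl h1, Finset.sum_comm]
  apply Finset.sum_eq_zero
  intro u _
  rw [Finset.sum_comm]
  apply Finset.sum_eq_zero
  intro v _
  rw [← Finset.sum_smul, hG d Φ w hw F hF hint ξ hξ, zero_smul]

/-- The rigidity equations. -/
def Rig (S : (Fin d → ℝ) → MvPolynomial Φ.verts ℝ)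
    (g : (Fin d → ℝ) → Fin d → MvPolynomial Φ.verts ℝ) : Prop :=
  ∀ σ ∈ Φ.facets, ∀ v ∈ σ, ∀ u ∈ σ,
    ∑ i, u i • g v i + ∑ i, v i • g u i + S v * hgt Φ u + S u * hgt Φ v = 0

lemma rig_prod {S : (Fin d → ℝ) → MvPolynomial Φ.verts ℝ}
    {g : (Fin d → ℝ) → Fin d → MvPolynomial Φ.verts ℝ} (hr : Rig Φ S g)
    {σ : Finset (Fin d → ℝ)} (hσ : σ ∈ Φ.facets) (ξ : Fin d → ℝ) :
    pl σ S ξ * pl σ (hgt Φ) ξ = - ∑ i, ξ i • pl σ (fun v => g v i) ξ := by
  have h1 : pl σ S ξ * pl σ (hgt Φ) ξ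
      = ∑ v ∈ σ, ∑ u ∈ σ, (crd σ v ξ * crd σ u ξ) • (S v * hgt Φ u) := by
    unfold pl
    rw [Finset.sum_mul_sum]
    apply Finset.sum_congr rfl
    intro v _
    apply Finset.sum_congr rfl
    intro u _
    rw [smul_mul_smul_comm]
  have h2 : pl σ S ξ * pl σ (hgt Φ) ξ
      = ∑ v ∈ σ, ∑ u ∈ σ, (crd σ v ξ * crd σ u ξ) • (S u * hgt Φ v) := by
    rw [h1, Finset.sum_comm]
    apply Finset.sum_congr rfl
    intro v _
    apply Finset.sum_congr rfl
    intro u _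
    rw [mul_comm (crd σ u ξ)]
  have h3 : ∑ v ∈ σ, ∑ u ∈ σ, (crd σ v ξ * crd σ u ξ) • (∑ i, u i • g v i)
      = ∑ i, ξ i • pl σ (fun v => g v i) ξ := by
    have h4 : ∀ i, ξ i = ∑ u ∈ σ, crd σ u ξ * u i := by
      intro i
      conv_lhs => rw [← Φ.sum_crd hσ ξ]
      simp
    have h5 : ∀ i, ξ i • pl σ (fun v => g v i) ξ
        = ∑ v ∈ σ, ∑ u ∈ σ, (crd σ v ξ * crd σ u ξ) • (u i • g v i) := by
      intro i
      unfold pl
      rw [Finset.smul_sum]
      apply Finset.sum_congr rfl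
      intro v _
      conv_lhs => rw [h4 i]
      rw [Finset.sum_smul]
      apply Finset.sum_congr rfl
      intro u _
      rw [smul_smul, smul_smul]
      congr 1
      ring
    rw [Finset.sum_congr rfl fun i _ => h5 i]
    symm
    rw [Finset.sum_comm]
    apply Finset.sum_congr rfl
    intro v _
    rw [Finset.sum_comm]
    apply Finset.sum_congr rfl
    intro u _
    rw [Finset.smul_sum]
  have h3' : ∑ v ∈ σ, ∑ u ∈ σ, (crd σ v ξ * crd σ u ξ) • (∑ i, v i • g u i)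
      = ∑ i, ξ i • pl σ (fun v => g v i) ξ := by
    rw [← h3, Finset.sum_comm]
    apply Finset.sum_congr rfl
    intro v _
    apply Finset.sum_congr rfl
    intro u _
    rw [mul_comm (crd σ u ξ)]
  have h6 : ∑ v ∈ σ, ∑ u ∈ σ, (crd σ v ξ * crd σ u ξ) •
      (∑ i, u i • g v i + ∑ i, v i • g u i + S v * hgt Φ u + S u * hgt Φ v) = 0 := by
    apply Finset.sum_eq_zero
    intro v hv
    apply Finset.sum_eq_zero
    intro u hu
    rw [hr σ hσ v hv u hu, smul_zero]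
  simp only [smul_add, Finset.sum_add_distrib] at h6
  rw [h3, h3', ← h1, ← h2] at h6
  have h7 : (2 : MvPolynomial Φ.verts ℝ) *
      (pl σ S ξ * pl σ (hgt Φ) ξ + ∑ i, ξ i • pl σ (fun v => g v i) ξ) = 0 := by
    linear_combination h6
  have h8 : pl σ S ξ * pl σ (hgt Φ) ξ + ∑ i, ξ i • pl σ (fun v => g v i) ξ = 0 := by
    rcases mul_eq_zero.1 h7 with h | h
    · exact absurd h two_ne_zero
    · exact h
  linear_combination h8

lemma T3 (hG : S_G) {w : Finset (Fin d → ℝ) → ℝ} (hw : IsWeight w)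
    {F : Finset (Fin d → ℝ)} (hF : F.card + 3 = d) (hint : ∃ v ∈ F, IsInt v)
    {ξ : Fin d → ℝ} (hξ : Φ.Generic ξ) {S : (Fin d → ℝ) → MvPolynomial Φ.verts ℝ}
    {g : (Fin d → ℝ) → Fin d → MvPolynomial Φ.verts ℝ} (hr : Rig Φ S g)
    (y : (Fin d → ℝ) → MvPolynomial Φ.verts ℝ) :
    ∑ σ ∈ Φ.facets.filter (fun σ => F ⊆ σ),
      (w σ * ∏ v ∈ σ \ F, crd σ v ξ)⁻¹ • (pl σ S ξ * pl σ (hgt Φ) ξ * pl σ y ξ) = 0 := by
  have h1 : ∀ σ ∈ Φ.facets.filter (fun σ => F ⊆ σ),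
      (w σ * ∏ v ∈ σ \ F, crd σ v ξ)⁻¹ • (pl σ S ξ * pl σ (hgt Φ) ξ * pl σ y ξ)
      = ∑ i, (- ξ i) • ((w σ * ∏ v ∈ σ \ F, crd σ v ξ)⁻¹ •
          (pl σ (fun v => g v i) ξ * pl σ y ξ)) := by
    intro σ hσ
    rw [Finset.mem_filter] at hσ
    rw [rig_prod Φ hr hσ.1, neg_mul, Finset.sum_mul, ← Finset.sum_neg_distrib, Finset.smul_sum]
    apply Finset.sum_congr rfl
    intro i _
    rw [smul_mul_assoc, neg_smul, smul_neg, smul_comm]
  rw [Finset.sum_congr rfl h1, Finset.sum_comm]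
  apply Finset.sum_eq_zero
  intro i _
  rw [← Finset.smul_sum, TR Φ hG hw hF hint hξ, smul_zero]

lemma D_pl (σ : Finset (Fin d → ℝ)) (u : Φ.verts) (p : (Fin d → ℝ) → MvPolynomial Φ.verts ℝ)
    (ξ : Fin d → ℝ) : MvPolynomial.pderiv u (pl σ p ξ)
      = pl σ (fun v => MvPolynomial.pderiv u (p v)) ξ := by
  unfold pl
  rw [map_sum]
  apply Finset.sum_congr rfl
  intro v _
  exact Derivation.map_smul _ _ _

lemma D_hgt {σ : Finset (Fin d → ℝ)} (hσ : σ ∈ Φ.facets) (u : Φ.verts) (ξ : Fin d → ℝ) :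
    pl σ (fun v => MvPolynomial.pderiv u (hgt Φ v)) ξ
      = crd σ u ξ • (1 : MvPolynomial Φ.verts ℝ) := by
  classical
  unfold pl
  by_cases hu : (u : Fin d → ℝ) ∈ σ
  · rw [Finset.sum_eq_single (u : Fin d → ℝ)]
    · congr 1
      simp only [hgt_mem Φ u.2]
      simp
    · intro b hb hbu
      have hb' : b ∈ Φ.verts := subset_verts Φ hσ hb
      simp only [hgt_mem Φ hb']
      rw [MvPolynomial.pderiv_X_of_ne, smul_zero]
      intro h
      apply hbu
      rw [← h]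
    · intro h
      exact absurd hu h
  · rw [crd_of_notMem hu]
    simp only [LinearMap.zero_apply, zero_smul]
    apply Finset.sum_eq_zero
    intro b hb
    have hb' : b ∈ Φ.verts := subset_verts Φ hσ hb
    simp only [hgt_mem Φ hb']
    rw [MvPolynomial.pderiv_X_of_ne, smul_zero]
    intro h
    apply hu
    rw [← h]
    exact hb

lemma square_zero (hG : S_G) {w : Finset (Fin d → ℝ) → ℝ} (hw : IsWeight w)
    {F : Finset (Fin d → ℝ)} (hF : F.card + 3 = d) (hint : ∃ v ∈ F, IsInt v)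
    {ξ : Fin d → ℝ} (hξ : Φ.Generic ξ) {S : (Fin d → ℝ) → MvPolynomial Φ.verts ℝ}
    {g : (Fin d → ℝ) → Fin d → MvPolynomial Φ.verts ℝ} (hr : Rig Φ S g) (u : Φ.verts) :
    ∑ σ ∈ Φ.facets.filter (fun σ => F ⊆ σ),
      (w σ * ∏ v ∈ σ \ F, crd σ v ξ)⁻¹ • (crd σ u ξ • (pl σ S ξ * pl σ S ξ)) = 0 := by
  have h1 := T3 Φ hG hw hF hint hξ hr S
  have h2 := T3 Φ hG hw hF hint hξ hr (fun v => MvPolynomial.pderiv u (S v))
  have h3 := congrArg (MvPolynomial.pderiv u) h1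
  rw [map_sum, map_zero] at h3
  have h4 : ∀ σ ∈ Φ.facets.filter (fun σ => F ⊆ σ),
      MvPolynomial.pderiv u ((w σ * ∏ v ∈ σ \ F, crd σ v ξ)⁻¹ •
        (pl σ S ξ * pl σ (hgt Φ) ξ * pl σ S ξ))
      = (2 : ℝ) • ((w σ * ∏ v ∈ σ \ F, crd σ v ξ)⁻¹ • (pl σ S ξ * pl σ (hgt Φ) ξ *
          pl σ (fun v => MvPolynomial.pderiv u (S v)) ξ))
        + (w σ * ∏ v ∈ σ \ F, crd σ v ξ)⁻¹ • (crd σ u ξ • (pl σ S ξ * pl σ S ξ)) := by
    intro σ hσ
    rw [Finset.mem_filter] at hσ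
    rw [Derivation.map_smul, Derivation.leibniz, Derivation.leibniz, D_pl, D_pl, D_hgt Φ hσ.1]
    simp only [smul_eq_mul, Algebra.smul_def, map_ofNat]
    ring
  rw [Finset.sum_congr rfl h4, Finset.sum_add_distrib, ← Finset.smul_sum, h2, smul_zero,
    zero_add] at h3
  exact h3

/-- Reduction of the sum over the star of `F` to the sum over the star of `G = F ∪ {u}`. -/
lemma reduce {w : Finset (Fin d → ℝ) → ℝ} {F G : Finset (Fin d → ℝ)} {u : Fin d → ℝ}
    (hu : u ∉ F) (hGF : ∀ v, v ∈ G ↔ v = u ∨ v ∈ F)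
    {ξ : Fin d → ℝ} (hξ : Φ.Generic ξ) {A : Type*} [AddCommGroup A] [Module ℝ A]
    (P : Finset (Fin d → ℝ) → A) :
    ∑ σ ∈ Φ.facets.filter (fun σ => F ⊆ σ),
      (w σ * ∏ v ∈ σ \ F, crd σ v ξ)⁻¹ • (crd σ u ξ • P σ)
    = ∑ σ ∈ Φ.facets.filter (fun σ => G ⊆ σ), (w σ * ∏ v ∈ σ \ G, crd σ v ξ)⁻¹ • P σ := by
  classical
  symm
  have hsub : Φ.facets.filter (fun σ => G ⊆ σ) ⊆ Φ.facets.filter (fun σ => F ⊆ σ) := by
    intro σ hσ
    rw [Finset.mem_filter] at hσ ⊢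
    exact ⟨hσ.1, fun v hv => hσ.2 ((hGF v).2 (Or.inr hv))⟩
  rw [← Finset.sum_subset hsub]
  · apply Finset.sum_congr rfl
    intro σ hσ
    rw [Finset.mem_filter] at hσ
    have huσ : u ∈ σ := hσ.2 ((hGF u).2 (Or.inl rfl))
    have h1 : σ \ F = insert u (σ \ G) := by
      ext v
      simp only [Finset.mem_sdiff, Finset.mem_insert, hGF v]
      constructor
      · rintro ⟨h1, h2⟩
        by_cases hvu : v = u
        · exact Or.inl hvu
        · exact Or.inr ⟨h1, by tauto⟩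
      · rintro (rfl | ⟨h1, h2⟩)
        · exact ⟨huσ, hu⟩
        · exact ⟨h1, by tauto⟩
    have h2 : u ∉ σ \ G := by
      simp [(hGF u).2 (Or.inl rfl)]
    rw [h1, Finset.prod_insert h2, smul_smul]
    congr 1
    have h3 : crd σ u ξ ≠ 0 := hξ σ hσ.1 u huσ
    field_simp
  · intro σ hσ hσ'
    rw [Finset.mem_filter] at hσ hσ'
    have huσ : u ∉ σ := by
      intro h
      apply hσ'
      refine ⟨hσ.1, fun v hv => ?_⟩
      rcases (hGF v).1 hv with rfl | hv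
      · exact h
      · exact hσ.2 hv
    rw [crd_of_notMem huσ]
    simp

/-- **Key statement**: on the star of a codimension 2 face with an interior vertex all the linear
pieces of `S` agree. -/
theorem key (hG : S_G) (hFw : S_F) (hH : S_H) (hJ : S_J) (hK : S_K)
    {S : (Fin d → ℝ) → MvPolynomial Φ.verts ℝ}
    {g : (Fin d → ℝ) → Fin d → MvPolynomial Φ.verts ℝ} (hr : Rig Φ S g)
    {G : Finset (Fin d → ℝ)} (hGc : G.card + 2 = d) (hd : 4 ≤ d) {v₀ : Fin d → ℝ}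
    (hv₀ : v₀ ∈ G) (hint : IsInt v₀) {σ σ' : Finset (Fin d → ℝ)} (hσ : σ ∈ Φ.facets)
    (hσ' : σ' ∈ Φ.facets) (hGσ : G ⊆ σ) (hGσ' : G ⊆ σ') {ξ : Fin d → ℝ} (hξ : Φ.Generic ξ) :
    pl σ S ξ = pl σ' S ξ := by
  classical
  obtain ⟨w, hw⟩ := hFw d
  obtain ⟨u, huG, huv⟩ : ∃ u ∈ G, u ≠ v₀ := by
    have h1 : 1 < G.card := by omega
    exact Finset.exists_mem_ne h1 v₀
  set F := G.erase u with hFdef
  have hFc : F.card + 3 = d := by
    rw [hFdef, Finset.card_erase_of_mem huG]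
    omega
  have hFint : ∃ v ∈ F, IsInt v := ⟨v₀, by rw [hFdef, Finset.mem_erase]; exact ⟨huv.symm, hv₀⟩, hint⟩
  have huF : u ∉ F := by simp [hFdef]
  have hGF : ∀ v, v ∈ G ↔ v = u ∨ v ∈ F := by
    intro v
    rw [hFdef, Finset.mem_erase]
    constructor
    · intro h
      by_cases hvu : v = u
      · exact Or.inl hvu
      · exact Or.inr ⟨hvu, h⟩
    · rintro (rfl | h)
      · exact huG
      · exact h.2
  have huV : u ∈ Φ.verts := subset_verts Φ hσ (hGσ huG)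
  set I := Φ.facets.filter (fun σ => G ⊆ σ) with hI
  set c : Finset (Fin d → ℝ) → ℝ := fun σ => (w σ * ∏ v ∈ σ \ G, crd σ v ξ)⁻¹ with hc
  have hσI : σ ∈ I := by rw [hI, Finset.mem_filter]; exact ⟨hσ, hGσ⟩
  have hσ'I : σ' ∈ I := by rw [hI, Finset.mem_filter]; exact ⟨hσ', hGσ'⟩
  -- the identities
  have hα : ∀ q : (Fin d → ℝ) → MvPolynomial Φ.verts ℝ, ∑ ρ ∈ I, c ρ • pl ρ q ξ = 0 := by
    intro q
    have h1 := TR Φ hG hw hFc hFint hξ
      (fun v => if v = u then (1 : MvPolynomial Φ.verts ℝ) else 0) q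
    have h2 := reduce Φ (w := w) huF hGF hξ (fun ρ => pl ρ q ξ)
    rw [← h2]
    rw [← h1]
    apply Finset.sum_congr rfl
    intro ρ hρ
    congr 1
    have h3 : pl ρ (fun v => if v = u then (1 : MvPolynomial Φ.verts ℝ) else 0) ξ
        = crd ρ u ξ • (1 : MvPolynomial Φ.verts ℝ) := by
      unfold pl
      by_cases hu : u ∈ ρ
      · rw [Finset.sum_eq_single u]
        · simp
        · intro b _ hb
          simp [hb]
        · intro h
          exact absurd hu h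
      · rw [crd_of_notMem hu]
        simp only [LinearMap.zero_apply, zero_smul]
        apply Finset.sum_eq_zero
        intro v hv
        have : v ≠ u := by
          rintro rfl
          exact hu hv
        simp [this]
    rw [h3, smul_mul_assoc, one_mul]
  have hβ : ∑ ρ ∈ I, c ρ • (pl ρ S ξ * pl ρ (hgt Φ) ξ) = 0 := by
    have h1 := T3 Φ hG hw hFc hFint hξ hr
      (fun v => if v = u then (1 : MvPolynomial Φ.verts ℝ) else 0)
    have h2 := reduce Φ (w := w) huF hGF hξ (fun ρ => pl ρ S ξ * pl ρ (hgt Φ) ξ)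
    rw [← h2]
    rw [← h1]
    apply Finset.sum_congr rfl
    intro ρ hρ
    congr 1
    have h3 : pl ρ (fun v => if v = u then (1 : MvPolynomial Φ.verts ℝ) else 0) ξ
        = crd ρ u ξ • (1 : MvPolynomial Φ.verts ℝ) := by
      unfold pl
      by_cases hu : u ∈ ρ
      · rw [Finset.sum_eq_single u]
        · simp
        · intro b _ hb
          simp [hb]
        · intro h
          exact absurd hu h
      · rw [crd_of_notMem hu]
        simp only [LinearMap.zero_apply, zero_smul]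
        apply Finset.sum_eq_zero
        intro v hv
        have : v ≠ u := by
          rintro rfl
          exact hu hv
        simp [this]
    rw [h3, mul_smul_comm, mul_one]
  have hγ : ∑ ρ ∈ I, c ρ • (pl ρ S ξ * pl ρ S ξ) = 0 := by
    have h1 := square_zero Φ hG hw hFc hFint hξ hr ⟨u, huV⟩
    have h2 := reduce Φ (w := w) huF hGF hξ (fun ρ => pl ρ S ξ * pl ρ S ξ)
    rw [← h2]
    exact h1
  -- sum of the coefficients
  have hsum : ∑ ρ ∈ I, c ρ = 0 := by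
    obtain ⟨b, hb⟩ : ∃ b, b ∈ σ := ⟨u, hGσ huG⟩
    have h1 := hG d Φ w hw F hFc hFint ξ hξ (Pi.single u 1) (crd σ b)
    have h2 := reduce Φ (w := w) huF hGF hξ (fun _ => crd σ b ξ)
    have h3 : ∑ ρ ∈ I, c ρ • crd σ b ξ = 0 := by
      rw [← h2, ← h1]
      apply Finset.sum_congr rfl
      intro ρ hρ
      rw [Finset.mem_filter] at hρ
      rw [pl_single, Φ.pl_linear hρ.1]
      simp only [smul_eq_mul]
    simp only [smul_eq_mul] at h3
    rw [← Finset.sum_mul] at h3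
    rcases mul_eq_zero.1 h3 with h | h
    · exact h
    · exact absurd h (hξ σ hσ b hb)
  have hcne : ∀ ρ ∈ I, c ρ ≠ 0 := by
    intro ρ hρ
    rw [hI, Finset.mem_filter] at hρ
    rw [hc]
    apply inv_ne_zero
    apply mul_ne_zero
    · exact (hw.pos ρ (Φ.card ρ hρ.1) (Φ.indep ρ hρ.1)).ne'
    · rw [Finset.prod_ne_zero_iff]
      intro v hv
      exact hξ ρ hρ.1 v (Finset.mem_sdiff.1 hv).1
  obtain ⟨hJ1, hJ2⟩ := hJ d Φ w hw G hGc ξ hξ
  obtain ⟨h₀, hh₀⟩ := hJ2 hsum ⟨σ, hσ, hGσ⟩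
  -- the open set
  set U : Set (Φ.verts → ℝ) := {h | 0 < ∑ ρ ∈ I, c ρ *
    (MvPolynomial.eval h (pl ρ (hgt Φ) ξ) * MvPolynomial.eval h (pl ρ (hgt Φ) ξ))} with hU
  have hUo : IsOpen U := by
    apply isOpen_lt continuous_const
    apply continuous_finsetSum
    intro ρ _
    apply Continuous.mul continuous_const
    exact (MvPolynomial.continuous_eval _).mul (MvPolynomial.continuous_eval _)
  have heval : ∀ (h : Φ.verts → ℝ) (ρ : Finset (Fin d → ℝ))
      (p : (Fin d → ℝ) → MvPolynomial Φ.verts ℝ),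
      MvPolynomial.eval h (pl ρ p ξ) = pl ρ (fun v => MvPolynomial.eval h (p v)) ξ := by
    intro h ρ p
    unfold pl
    rw [map_sum]
    apply Finset.sum_congr rfl
    intro v _
    rw [MvPolynomial.smul_eval, smul_eq_mul]
  have hUne : U.Nonempty := by
    refine ⟨fun v => h₀ v, ?_⟩
    rw [hU, Set.mem_ofPred_eq]
    have h1 : ∀ ρ ∈ I, MvPolynomial.eval (fun v : Φ.verts => h₀ v) (pl ρ (hgt Φ) ξ)
        = pl ρ h₀ ξ := by
      intro ρ hρ
      rw [hI, Finset.mem_filter] at hρ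
      rw [heval]
      unfold pl
      apply Finset.sum_congr rfl
      intro v hv
      have hv' := subset_verts Φ hρ.1 hv
      congr 1
      simp only [hgt_mem Φ hv']
      simp
    rw [Finset.sum_congr rfl fun ρ hρ => by rw [h1 ρ hρ]]
    exact hh₀
  have hzero : pl σ S ξ - pl σ' S ξ = 0 := by
    apply hK Φ.verts _ U hUo hUne
    intro h hh
    have hpush : ∀ P : Finset (Fin d → ℝ) → MvPolynomial Φ.verts ℝ,
        ∑ ρ ∈ I, c ρ • P ρ = 0 → ∑ ρ ∈ I, c ρ * MvPolynomial.eval h (P ρ) = 0 := by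
      intro P hP
      have := congrArg (MvPolynomial.eval h) hP
      rw [map_sum, map_zero] at this
      simpa [MvPolynomial.smul_eval] using this
    have h1 := hpush _ (hα S)
    have h2 := hpush _ (hα (hgt Φ))
    have h3 := hpush _ hβ
    have h4 := hpush _ hγ
    simp only [map_mul] at h3 h4
    have h5 := hH (Finset (Fin d → ℝ)) I c (fun ρ => MvPolynomial.eval h (pl ρ S ξ))
      (fun ρ => MvPolynomial.eval h (pl ρ (hgt Φ) ξ)) hcne hJ1 hsum h1 h2 h3 h4 hh σ hσI σ' hσ'I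
    rw [map_sub]
    exact sub_eq_zero.2 h5
  exact sub_eq_zero.1 hzero

end Pool.LH12
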