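import Pool.Agent.LH12.Stmts

/-!
# The Lorentz lemma and polynomials vanishing on an open set
-/

namespace Pool.LH12

open Finset

theorem pkgH : S_H := by
  classical
  intro ι I c S h hc hcard h0 hS hh hSh hSS hpos
  -- a positive index
  have hex : ∃ i ∈ I, 0 < c i := by
    by_contra hcon
    push Not at hcon
    have : ∑ i ∈ I, c i * (h i * h i) ≤ 0 :=
      Finset.sum_nonpos fun i hi => mul_nonpos_of_nonpos_of_nonneg (hcon i hi) (mul_self_nonneg _)
    linarith
  obtain ⟨i0, hi0, hci0⟩ := hex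
  set T : ι → ℝ := fun i => S i - S i0 with hT
  set g : ι → ℝ := fun i => h i - h i0 with hg
  have eTT : ∑ i ∈ I, c i * (T i * T i) = 0 := by
    have : ∀ i ∈ I, c i * (T i * T i) =
        c i * (S i * S i) - 2 * S i0 * (c i * S i) + S i0 ^ 2 * c i := fun i _ => by
      simp only [hT]; ring
    rw [Finset.sum_congr rfl this, Finset.sum_add_distrib, Finset.sum_sub_distrib,
      ← Finset.mul_sum, ← Finset.mul_sum, hSS, hS, h0]
    ring
  have eTg : ∑ i ∈ I, c i * (T i * g i) = 0 := by
    have : ∀ i ∈ I, c i * (T i * g i) =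
        c i * (S i * h i) - h i0 * (c i * S i) - S i0 * (c i * h i) + S i0 * h i0 * c i :=
      fun i _ => by simp only [hT, hg]; ring
    rw [Finset.sum_congr rfl this, Finset.sum_add_distrib, Finset.sum_sub_distrib,
      Finset.sum_sub_distrib, ← Finset.mul_sum, ← Finset.mul_sum, ← Finset.mul_sum, hSh, hS, hh,
      h0]
    ring
  have egg : 0 < ∑ i ∈ I, c i * (g i * g i) := by
    have : ∀ i ∈ I, c i * (g i * g i) =
        c i * (h i * h i) - 2 * h i0 * (c i * h i) + h i0 ^ 2 * c i := fun i _ => by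
      simp only [hg]; ring
    rw [Finset.sum_congr rfl this, Finset.sum_add_distrib, Finset.sum_sub_distrib,
      ← Finset.mul_sum, ← Finset.mul_sum, hh, h0]
    linarith
  have hT0 : T i0 = 0 := sub_self _
  have hg0 : g i0 = 0 := sub_self _
  set R := I.erase i0 with hR
  have rTT : ∑ i ∈ R, c i * (T i * T i) = 0 := by
    rw [← Finset.add_sum_erase I _ hi0, hT0] at eTT
    linarith
  have rTg : ∑ i ∈ R, c i * (T i * g i) = 0 := by
    rw [← Finset.add_sum_erase I _ hi0, hT0] at eTg
    linarith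
  have rgg : 0 < ∑ i ∈ R, c i * (g i * g i) := by
    rw [← Finset.add_sum_erase I _ hi0, hg0] at egg
    linarith
  have hex1 : ∃ i ∈ R, 0 < c i := by
    by_contra hcon
    push Not at hcon
    have : ∑ i ∈ R, c i * (g i * g i) ≤ 0 :=
      Finset.sum_nonpos fun i hi => mul_nonpos_of_nonpos_of_nonneg (hcon i hi) (mul_self_nonneg _)
    linarith
  obtain ⟨i1, hi1, hci1⟩ := hex1
  have hneg : ∀ i ∈ R.erase i1, c i ≤ 0 := by
    intro i hi
    by_contra hcon
    push Not at hcon
    have h1 : i ≠ i1 := Finset.ne_of_mem_erase hi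
    have h2 : i ∈ R := Finset.mem_of_mem_erase hi
    have h3 : i ≠ i0 := Finset.ne_of_mem_erase h2
    have h4 : i ∈ I := Finset.mem_of_mem_erase h2
    have h5 : i1 ≠ i0 := Finset.ne_of_mem_erase hi1
    have h6 : i1 ∈ I := Finset.mem_of_mem_erase hi1
    have hsub : ({i0, i1, i} : Finset ι) ⊆ I.filter (fun i => 0 < c i) := by
      intro j hj
      simp only [Finset.mem_insert, Finset.mem_singleton] at hj
      rw [Finset.mem_filter]
      rcases hj with rfl | rfl | rfl
      · exact ⟨hi0, hci0⟩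
      · exact ⟨h6, hci1⟩
      · exact ⟨h4, hcon⟩
    have h7 := Finset.card_le_card hsub
    rw [Finset.card_eq_three.mpr ⟨i0, i1, i, h5.symm, h3.symm, h1.symm, rfl⟩] at h7
    omega
  set R' := R.erase i1 with hR'
  have sTT : c i1 * (T i1 * T i1) = ∑ i ∈ R', (-c i) * (T i * T i) := by
    rw [← Finset.add_sum_erase R _ hi1] at rTT
    simp only [neg_mul, Finset.sum_neg_distrib]
    linarith
  have sTg : c i1 * (T i1 * g i1) = ∑ i ∈ R', (-c i) * (T i * g i) := by
    rw [← Finset.add_sum_erase R _ hi1] at rTg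
    simp only [neg_mul, Finset.sum_neg_distrib]
    linarith
  have sgg : ∑ i ∈ R', (-c i) * (g i * g i) < c i1 * (g i1 * g i1) := by
    rw [← Finset.add_sum_erase R _ hi1] at rgg
    simp only [neg_mul, Finset.sum_neg_distrib]
    linarith
  have hCS : (∑ i ∈ R', (-c i) * (T i * g i)) ^ 2 ≤
      (∑ i ∈ R', (-c i) * (T i * T i)) * ∑ i ∈ R', (-c i) * (g i * g i) := by
    refine Finset.sum_sq_le_sum_mul_sum_of_sq_le_mul R' ?_ ?_ ?_
    · intro i hi
      exact mul_nonneg (by linarith [hneg i hi]) (mul_self_nonneg _)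
    · intro i hi
      exact mul_nonneg (by linarith [hneg i hi]) (mul_self_nonneg _)
    · intro i _
      exact le_of_eq (by ring)
  rw [← sTg, ← sTT] at hCS
  have hT1 : T i1 = 0 := by
    by_contra hne
    have h1 : 0 < c i1 * (T i1 * T i1) := mul_pos hci1 (mul_self_pos.mpr hne)
    have h2 : (c i1 * (T i1 * g i1)) ^ 2 = (c i1 * (T i1 * T i1)) * (c i1 * (g i1 * g i1)) := by
      ring
    rw [h2] at hCS
    have := lt_of_le_of_lt hCS (mul_lt_mul_of_pos_left sgg h1)
    exact lt_irrefl _ this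
  have hall : ∀ i ∈ I, T i = 0 := by
    intro i hi
    by_cases h1 : i = i0
    · rw [h1, hT0]
    · by_cases h2 : i = i1
      · rw [h2, hT1]
      · have h3 : i ∈ R' := Finset.mem_erase.mpr ⟨h2, Finset.mem_erase.mpr ⟨h1, hi⟩⟩
        rw [hT1, mul_zero, mul_zero] at sTT
        have h4 : (-c i) * (T i * T i) = 0 :=
          (Finset.sum_eq_zero_iff_of_nonneg (fun j hj =>
            mul_nonneg (by linarith [hneg j hj]) (mul_self_nonneg _))).mp sTT.symm i h3
        rcases mul_eq_zero.mp h4 with h5 | h5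
        · exact absurd (neg_eq_zero.mp h5) (hc i hi)
        · exact mul_self_eq_zero.mp h5
  intro i hi j hj
  have h1 := hall i hi
  have h2 := hall j hj
  simp only [hT] at h1 h2
  linarith

theorem pkgK : S_K := by
  intro ι _ P U hU hne hP
  obtain ⟨x, hx⟩ := hne
  obtain ⟨ε, hε, hball⟩ := Metric.isOpen_iff.mp hU x hx
  refine MvPolynomial.funext_set (fun i => Set.Ioo (x i - ε) (x i + ε))
    (fun i => Set.Ioo_infinite (by linarith)) fun y hy => ?_
  rw [map_zero]
  refine hP y (hball ?_)
  rw [Metric.mem_ball, dist_pi_lt_iff hε]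
  intro i
  have := hy i (Set.mem_univ i)
  rw [Real.dist_eq, abs_lt]
  constructor <;> linarith [this.1, this.2]

end Pool.LH12
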