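import Pool.Agent.LH12.Stmts

/-!
# Package M: the maximum principle
-/

namespace Pool.LH12

open Finset

variable {d : ℕ}

/-- The piecewise linear extension as a linear map. -/
noncomputable def plM (σ : Finset (Fin d → ℝ)) (s : (Fin d → ℝ) → ℝ) : (Fin d → ℝ) →ₗ[ℝ] ℝ :=
  ∑ v ∈ σ, s v • crd σ v

lemma pl_eq_plM (σ : Finset (Fin d → ℝ)) (s : (Fin d → ℝ) → ℝ) (x : Fin d → ℝ) :
    pl σ s x = plM σ s x := by
  unfold pl plM
  rw [LinearMap.sum_apply]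
  apply Finset.sum_congr rfl
  intro v _
  simp [mul_comm]

lemma M_self_mem_cone (Φ : Fan d) {σ : Finset (Fin d → ℝ)} (hσ : σ ∈ Φ.facets)
    {v : Fin d → ℝ} (hv : v ∈ σ) : v ∈ cone σ := by
  rw [Φ.mem_cone_iff hσ]
  intro u hu
  rw [Φ.crd_self hσ hv hu]
  split_ifs <;> norm_num

lemma M_isClosed_cone (Φ : Fan d) {σ : Finset (Fin d → ℝ)} (hσ : σ ∈ Φ.facets) :
    IsClosed (cone σ) := by
  have h1 : cone σ = ⋂ v ∈ σ, {x | 0 ≤ crd σ v x} := by
    ext x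
    rw [Φ.mem_cone_iff hσ]
    simp
  rw [h1]
  apply isClosed_biInter
  intro v _
  exact isClosed_le continuous_const (LinearMap.continuous_of_finiteDimensional _)

lemma M_local (Φ : Fan d) {v₀ : Fin d → ℝ} (hv₀ : v₀ ∈ Φ.verts) (hi : IsInt v₀) :
    ∃ r : ℝ, 0 < r ∧ (∀ x ∈ Metric.ball v₀ r, ∀ i, 0 < x i) ∧
      (∀ x ∈ Metric.ball v₀ r, ∀ σ ∈ Φ.facets, x ∈ cone σ → v₀ ∈ σ) := by
  obtain ⟨σ₀, hσ₀, hv₀σ⟩ : ∃ σ ∈ Φ.facets, v₀ ∈ σ := by
    simpa [Fan.verts] using hv₀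
  have hopen : IsOpen ((⋂ i, {x : Fin d → ℝ | 0 < x i}) ∩
      ⋂ σ ∈ Φ.facets.filter (fun σ => v₀ ∉ σ), (cone σ)ᶜ) := by
    apply IsOpen.inter
    · apply isOpen_iInter_of_finite
      intro i
      exact isOpen_lt continuous_const (continuous_apply i)
    · apply isOpen_biInter_finset
      intro σ hσ
      exact (M_isClosed_cone Φ (Finset.mem_filter.1 hσ).1).isOpen_compl
  have hmem : v₀ ∈ ((⋂ i, {x : Fin d → ℝ | 0 < x i}) ∩
      ⋂ σ ∈ Φ.facets.filter (fun σ => v₀ ∉ σ), (cone σ)ᶜ) := by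
    refine ⟨?_, ?_⟩
    · simp only [Set.mem_iInter, Set.mem_ofPred_eq]
      exact hi
    · simp only [Set.mem_iInter, Set.mem_compl_iff]
      intro σ hσ hc
      rw [Finset.mem_filter] at hσ
      have h1 := Φ.crd_eq_zero_of_mem hσ₀ hσ.1 (M_self_mem_cone Φ hσ₀ hv₀σ) hc hv₀σ hσ.2
      rw [Φ.crd_self hσ₀ hv₀σ hv₀σ, if_pos rfl] at h1
      exact one_ne_zero h1
  obtain ⟨r, hr, hsub⟩ := Metric.isOpen_iff.1 hopen v₀ hmem
  refine ⟨r, hr, ?_, ?_⟩
  · intro x hx i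
    have := (hsub hx).1
    simp only [Set.mem_iInter, Set.mem_ofPred_eq] at this
    exact this i
  · intro x hx σ hσ hc
    by_contra hn
    have := (hsub hx).2
    simp only [Set.mem_iInter, Set.mem_compl_iff] at this
    exact this σ (Finset.mem_filter.2 ⟨hσ, hn⟩) hc

/-- Points `v₀ + ε u` lie in the ball for small `ε`. -/
lemma M_small (v₀ u : Fin d → ℝ) {r : ℝ} (hr : 0 < r) :
    ∃ ε : ℝ, 0 < ε ∧ v₀ + ε • u ∈ Metric.ball v₀ r := by
  refine ⟨r / (2 * (‖u‖ + 1)), by positivity, ?_⟩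
  rw [Metric.mem_ball, dist_eq_norm, add_sub_cancel_left, norm_smul, Real.norm_eq_abs,
    abs_of_pos (by positivity)]
  rw [div_mul_eq_mul_div, div_lt_iff₀ (by positivity)]
  nlinarith [norm_nonneg u, mul_nonneg hr.le (norm_nonneg u)]

lemma M_sum_crd (Φ : Fan d) {σ : Finset (Fin d → ℝ)} (hσ : σ ∈ Φ.facets) (x : Fin d → ℝ) :
    ∑ v ∈ σ, crd σ v x = ∑ i, x i := by
  conv_rhs => rw [← Φ.sum_crd hσ x]
  simp only [Finset.sum_apply, Pi.smul_apply, smul_eq_mul]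
  rw [Finset.sum_comm]
  apply Finset.sum_congr rfl
  intro v hv
  rw [← Finset.mul_sum, Φ.sum_one σ hσ v hv, mul_one]

lemma M_le (hD : S_D) (Φ : Fan d) (hd : 2 ≤ d) (s : (Fin d → ℝ) → ℝ)
    (h0 : ∀ v ∈ Φ.verts, ¬ IsInt v → s v = 0)
    (hs : ∀ σ ∈ Φ.facets, ∀ σ' ∈ Φ.facets, d ≤ (σ ∩ σ').card + 1 → ∀ v ∈ σ ∩ σ', IsInt v →
      ∀ x, pl σ s x = pl σ' s x) : ∀ v ∈ Φ.verts, s v ≤ 0 := by
  classical
  by_contra hcon
  push Not at hcon
  obtain ⟨u, hu, hu0⟩ := hcon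
  have hmem : ∀ {σ : Finset (Fin d → ℝ)}, σ ∈ Φ.facets → ∀ {v}, v ∈ σ → v ∈ Φ.verts := by
    intro σ hσ v hv
    simp only [Fan.verts, Finset.mem_biUnion, id]
    exact ⟨σ, hσ, hv⟩
  -- the maximum
  obtain ⟨m, hm, hmax⟩ := Finset.exists_max_image Φ.verts s ⟨u, hu⟩
  set M : ℝ := s m with hM
  have hMpos : 0 < M := lt_of_lt_of_le hu0 (hmax u hu)
  -- the vertices where the maximum is attained
  set A := Φ.verts.filter (fun v => s v = M) with hA
  have hAne : A.Nonempty := ⟨m, Finset.mem_filter.2 ⟨hm, rfl⟩⟩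
  have i0 : Fin d := ⟨0, by omega⟩
  obtain ⟨v₀, hv₀A, hv₀max⟩ := Finset.exists_max_image A (fun v => v i0) hAne
  have hv₀ : v₀ ∈ Φ.verts := (Finset.mem_filter.1 hv₀A).1
  have hsv₀ : s v₀ = M := (Finset.mem_filter.1 hv₀A).2
  have hint : IsInt v₀ := by
    by_contra hn
    have := h0 v₀ hv₀ hn
    rw [hsv₀] at this
    exact hMpos.ne' this
  obtain ⟨r, hr, hpos, hloc⟩ := M_local Φ hv₀ hint
  -- all facets at `v₀` have the same functional
  have hsame : ∀ σ ∈ Φ.facets, v₀ ∈ σ → ∀ σ' ∈ Φ.facets, v₀ ∈ σ' →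
      (fun x => pl σ s x) = (fun x => pl σ' s x) := by
    have hmeet : ∀ σ ∈ Φ.facets, v₀ ∈ σ → ∃ x ∈ Metric.ball v₀ r, ∀ v ∈ σ, 0 < crd σ v x := by
      intro σ hσ hv
      obtain ⟨ε, hε, hin⟩ := M_small v₀ (∑ v ∈ σ, v) hr
      refine ⟨_, hin, ?_⟩
      intro v hv'
      rw [map_add, map_smul, Φ.crd_self hσ hv hv', map_sum]
      have : ∑ x ∈ σ, (crd σ v) x = 1 := by
        rw [Finset.sum_congr rfl (fun x hx => Φ.crd_self hσ hx hv')]
        simp [hv']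
      rw [this]
      split_ifs
      · simp only [smul_eq_mul, mul_one]
        linarith
      · simp only [smul_eq_mul, mul_one, zero_add]
        exact hε
    intro σ hσ hv σ' hσ' hv'
    have key := hD d Φ (Metric.ball v₀ r) Metric.isOpen_ball (convex_ball v₀ r) hpos
      ((Fin d → ℝ) → ℝ) (fun ρ => if v₀ ∈ ρ then (fun x => pl ρ s x) else 0) ?_ σ hσ σ' hσ'
      (hmeet σ hσ hv) (hmeet σ' hσ' hv')
    · simpa [hv, hv'] using key
    · intro ρ hρ ρ' hρ' hcard ⟨x, hx, hxρ, hxρ'⟩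
      have h1 := hloc x hx ρ hρ hxρ
      have h2 := hloc x hx ρ' hρ' hxρ'
      simp only [h1, h2, if_true]
      funext y
      exact hs ρ hρ ρ' hρ' hcard v₀ (Finset.mem_inter.2 ⟨h1, h2⟩) hint y
  -- upper bound for the functional on the cones at `v₀`
  have hub : ∀ σ ∈ Φ.facets, ∀ x ∈ cone σ, pl σ s x ≤ M * ∑ i, x i := by
    intro σ hσ x hx
    rw [← M_sum_crd Φ hσ x, Finset.mul_sum]
    unfold pl
    apply Finset.sum_le_sum
    intro v hv
    rw [smul_eq_mul, mul_comm]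
    exact mul_le_mul_of_nonneg_right (hmax v (hmem hσ hv)) ((Φ.mem_cone_iff hσ).1 hx v hv)
  -- all neighbours have value `M`
  have hnb : ∀ σ ∈ Φ.facets, v₀ ∈ σ → ∀ w ∈ σ, s w = M := by
    intro σ hσ hv w hw
    apply le_antisymm (hmax w (hmem hσ hw))
    obtain ⟨ε, hε, hin⟩ := M_small v₀ (v₀ - w) hr
    obtain ⟨σ', hσ', hc⟩ := Φ.cover (v₀ + ε • (v₀ - w)) (fun i => (hpos _ hin i).le)
    have hv' := hloc _ hin σ' hσ' hc
    have h1 := hub σ' hσ' _ hc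
    have h2 := congrFun (hsame σ' hσ' hv' σ hσ hv) (v₀ + ε • (v₀ - w))
    change pl σ' s _ = pl σ s _ at h2
    rw [h2, pl_eq_plM, map_add, map_smul, map_sub, ← pl_eq_plM, ← pl_eq_plM] at h1
    have hplv : ∀ v ∈ σ, pl σ s v = s v := by
      intro v hv
      unfold pl
      rw [Finset.sum_congr rfl (fun x hx => by rw [Φ.crd_self hσ hv hx])]
      simp [hv]
    rw [hplv v₀ hv, hplv w hw, hsv₀] at h1
    have hsum : ∑ i, (v₀ + ε • (v₀ - w)) i = 1 := by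
      have e1 := Φ.sum_one σ hσ v₀ hv
      have e2 := Φ.sum_one σ hσ w hw
      simp only [Pi.add_apply, Pi.smul_apply, Pi.sub_apply, smul_eq_mul]
      rw [Finset.sum_add_distrib, ← Finset.mul_sum, Finset.sum_sub_distrib, e1, e2]
      ring
    rw [hsum, smul_eq_mul, mul_one] at h1
    have h3 : ε * (M - s w) ≤ 0 := by linarith
    by_contra hlt
    push Not at hlt
    have : 0 < ε * (M - s w) := mul_pos hε (by linarith)
    linarith
  -- move towards the vertex `e_0`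
  have hsum₀ : ∑ i, v₀ i = 1 := by
    obtain ⟨σ₀, hσ₀, hv₀σ⟩ : ∃ σ ∈ Φ.facets, v₀ ∈ σ := by
      simpa [Fan.verts] using hv₀
    exact Φ.sum_one σ₀ hσ₀ v₀ hv₀σ
  have hlt1 : v₀ i0 < 1 := by
    have : Nontrivial (Fin d) := Fin.nontrivial_iff_two_le.2 hd
    obtain ⟨j, hj⟩ := exists_ne i0
    have h1 : v₀ i0 + v₀ j ≤ ∑ i, v₀ i := by
      rw [← Finset.sum_pair hj.symm]
      apply Finset.sum_le_sum_of_subset_of_nonneg (Finset.subset_univ _)
      intro i _ _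
      exact (hint i).le
    have h2 := hint j
    linarith
  obtain ⟨ε, hε, hin⟩ := M_small v₀ (Pi.single i0 1 - v₀) hr
  obtain ⟨σ, hσ, hc⟩ := Φ.cover (v₀ + ε • (Pi.single i0 1 - v₀)) (fun i => (hpos _ hin i).le)
  have hv := hloc _ hin σ hσ hc
  have hall : ∀ v ∈ σ, v i0 ≤ v₀ i0 := by
    intro v hvσ
    apply hv₀max v
    exact Finset.mem_filter.2 ⟨hmem hσ hvσ, hnb σ hσ hv v hvσ⟩
  have hle : (v₀ + ε • ((Pi.single i0 (1 : ℝ) : Fin d → ℝ) - v₀)) i0 ≤ v₀ i0 := by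
    conv_lhs => rw [← Φ.sum_crd hσ (v₀ + ε • ((Pi.single i0 (1 : ℝ) : Fin d → ℝ) - v₀))]
    rw [Finset.sum_apply]
    calc ∑ v ∈ σ, (crd σ v (v₀ + ε • ((Pi.single i0 (1 : ℝ) : Fin d → ℝ) - v₀)) • v) i0
        ≤ ∑ v ∈ σ, crd σ v (v₀ + ε • ((Pi.single i0 (1 : ℝ) : Fin d → ℝ) - v₀)) * v₀ i0 := by
          apply Finset.sum_le_sum
          intro v hvσ
          rw [Pi.smul_apply, smul_eq_mul]
          exact mul_le_mul_of_nonneg_left (hall v hvσ) ((Φ.mem_cone_iff hσ).1 hc v hvσ)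
      _ = v₀ i0 := by
          rw [← Finset.sum_mul, M_sum_crd Φ hσ]
          have : ∑ i, (v₀ + ε • ((Pi.single i0 (1 : ℝ) : Fin d → ℝ) - v₀)) i = 1 := by
            simp only [Pi.add_apply, Pi.smul_apply, Pi.sub_apply, smul_eq_mul]
            rw [Finset.sum_add_distrib, ← Finset.mul_sum, Finset.sum_sub_distrib, hsum₀]
            simp
          rw [this, one_mul]
  simp only [Pi.add_apply, Pi.smul_apply, Pi.sub_apply, smul_eq_mul, Pi.single_eq_same] at hle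
  have : 0 < ε * (1 - v₀ i0) := mul_pos hε (by linarith)
  linarith

theorem pkgM (hD : S_D) : S_M := by
  intro d Φ hd s h0 hs v hv
  apply le_antisymm (M_le hD Φ hd s h0 hs v hv)
  have h := M_le hD Φ hd (fun v => - s v) (fun v hv hn => by simp [h0 v hv hn]) ?_ v hv
  · linarith
  · intro σ hσ σ' hσ' hcard v hv hi x
    have := hs σ hσ σ' hσ' hcard v hv hi x
    unfold pl at this ⊢
    simp only [smul_neg, Finset.sum_neg_distrib]
    rw [this]

end Pool.LH12
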