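import Pool.Agent.LH12.Stmts

/-!
# Package J: at most two positive coefficients, and a direction of positive square
-/

namespace Pool.LH12

open Finset

variable {d : ℕ}

private lemma PosDir_uniq (Φ : Fan d) {G σ σ' : Finset (Fin d → ℝ)} (hσ : σ ∈ Φ.facets)
    (hσ' : σ' ∈ Φ.facets) (hG : G ⊆ σ) (hG' : G ⊆ σ') (ζ : Fin d → ℝ)
    (h : ∀ v ∈ σ \ G, 0 < crd σ v ζ) (h' : ∀ v ∈ σ' \ G, 0 < crd σ' v ζ) : σ = σ' := by
  set N : ℝ := 1 + ∑ v ∈ σ, |crd σ v ζ| + ∑ v ∈ σ', |crd σ' v ζ| with hN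
  have h0 : 0 ≤ ∑ v ∈ σ, |crd σ v ζ| := sum_nonneg fun v _ => abs_nonneg _
  have h0' : 0 ≤ ∑ v ∈ σ', |crd σ' v ζ| := sum_nonneg fun v _ => abs_nonneg _
  set y : Fin d → ℝ := ∑ u ∈ G, N • u + ζ with hy
  have key : ∀ τ ∈ Φ.facets, G ⊆ τ → (∀ v ∈ τ \ G, 0 < crd τ v ζ) →
      (∀ v ∈ τ, |crd τ v ζ| < N) → ∀ v ∈ τ, 0 < crd τ v y := by
    intro τ hτ hGτ hpos hlt v hv
    rw [hy, map_add, Φ.crd_comb hτ (fun _ => N) hGτ hv]
    by_cases hvG : v ∈ G
    · rw [if_pos hvG]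
      have := (abs_lt.mp (hlt v hv)).1
      linarith
    · rw [if_neg hvG, zero_add]
      exact hpos v (mem_sdiff.mpr ⟨hv, hvG⟩)
  have h1 : ∀ v ∈ σ, 0 < crd σ v y := by
    refine key σ hσ hG h fun v hv => ?_
    have := single_le_sum (f := fun v => |crd σ v ζ|) (fun v _ => abs_nonneg _) hv
    linarith
  have h2 : ∀ v ∈ σ', 0 < crd σ' v y := by
    refine key σ' hσ' hG' h' fun v hv => ?_
    have := single_le_sum (f := fun v => |crd σ' v ζ|) (fun v _ => abs_nonneg _) hv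
    linarith
  exact Φ.eq_of_pos hσ hσ' h1 ((Φ.mem_cone_iff hσ').2 fun v hv => (h2 v hv).le)

/-- The two vertices outside the codimension 2 face. -/
private lemma PosDir_pair (Φ : Fan d) {G σ : Finset (Fin d → ℝ)} (hc : G.card + 2 = d)
    (hσ : σ ∈ Φ.facets) (hG : G ⊆ σ) : ∃ a b, a ≠ b ∧ σ \ G = {a, b} := by
  have h1 : (σ \ G).card = 2 := by
    rw [card_sdiff_of_subset hG, Φ.card σ hσ]
    omega
  exact card_eq_two.mp h1

theorem pkgJ : S_J := by
  intro d Φ w hw G hc ξ hξ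
  have hwp : ∀ σ ∈ Φ.facets, 0 < w σ := fun σ hσ => hw.pos σ (Φ.card σ hσ) (Φ.indep σ hσ)
  constructor
  · classical
    have hsub : (Φ.facets.filter (fun σ => G ⊆ σ)).filter
        (fun σ => 0 < (w σ * ∏ v ∈ σ \ G, crd σ v ξ)⁻¹) ⊆
        (Φ.facets.filter (fun σ => G ⊆ σ ∧ ∀ v ∈ σ \ G, 0 < crd σ v ξ)) ∪
        (Φ.facets.filter (fun σ => G ⊆ σ ∧ ∀ v ∈ σ \ G, 0 < crd σ v (-ξ))) := by
      intro σ hσ
      rw [mem_filter, mem_filter] at hσ
      obtain ⟨⟨hσ, hG⟩, hpos⟩ := hσ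
      rw [mem_union, mem_filter, mem_filter]
      obtain ⟨a, b, hab, hs⟩ := PosDir_pair Φ hc hσ hG
      rw [inv_pos, hs, prod_pair hab] at hpos
      have h1 : 0 < crd σ a ξ * crd σ b ξ := by
        have := hwp σ hσ
        by_contra hcon
        have := mul_nonpos_of_nonneg_of_nonpos this.le (not_lt.mp hcon)
        linarith
      rcases pos_and_pos_or_neg_and_neg_of_mul_pos h1 with ⟨ha, hb⟩ | ⟨ha, hb⟩
      · left
        refine ⟨hσ, hG, fun v hv => ?_⟩
        rw [hs, mem_insert, mem_singleton] at hv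
        rcases hv with rfl | rfl <;> assumption
      · right
        refine ⟨hσ, hG, fun v hv => ?_⟩
        rw [hs, mem_insert, mem_singleton] at hv
        rw [map_neg]
        rcases hv with rfl | rfl <;> linarith
    have hle : ∀ ζ : Fin d → ℝ,
        (Φ.facets.filter (fun σ => G ⊆ σ ∧ ∀ v ∈ σ \ G, 0 < crd σ v ζ)).card ≤ 1 := by
      intro ζ
      rw [card_le_one]
      intro σ hσ σ' hσ'
      rw [mem_filter] at hσ hσ'
      exact PosDir_uniq Φ hσ.1 hσ'.1 hσ.2.1 hσ'.2.1 ζ hσ.2.2 hσ'.2.2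
    calc _ ≤ _ := card_le_card hsub
      _ ≤ _ := card_union_le _ _
      _ ≤ 1 + 1 := add_le_add (hle ξ) (hle (-ξ))
      _ = 2 := rfl
  · intro hsum ⟨σ₀, hσ₀, hG₀⟩
    obtain ⟨a₀, b₀, hab₀, hs₀⟩ := PosDir_pair Φ hc hσ₀ hG₀
    have ha₀ : a₀ ∈ σ₀ \ G := by rw [hs₀]; simp
    have hb₀ : b₀ ∈ σ₀ \ G := by rw [hs₀]; simp
    have hp : crd σ₀ a₀ ξ ≠ 0 := hξ σ₀ hσ₀ a₀ (mem_sdiff.mp ha₀).1
    have hq : crd σ₀ b₀ ξ ≠ 0 := hξ σ₀ hσ₀ b₀ (mem_sdiff.mp hb₀).1
    set l : (Fin d → ℝ) →ₗ[ℝ] ℝ := crd σ₀ b₀ ξ • crd σ₀ a₀ - crd σ₀ a₀ ξ • crd σ₀ b₀ with hl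
    have hlx : ∀ x, l x = crd σ₀ b₀ ξ * crd σ₀ a₀ x - crd σ₀ a₀ ξ * crd σ₀ b₀ x := fun x => by
      simp [hl]
    have hlξ : l ξ = 0 := by rw [hlx]; ring
    have hlG : ∀ u ∈ G, l u = 0 := by
      intro u hu
      have h1 : crd σ₀ a₀ u = 0 := by
        rw [Φ.crd_self hσ₀ (hG₀ hu) (mem_sdiff.mp ha₀).1, if_neg]
        rintro rfl
        exact (mem_sdiff.mp ha₀).2 hu
      have h2 : crd σ₀ b₀ u = 0 := by
        rw [Φ.crd_self hσ₀ (hG₀ hu) (mem_sdiff.mp hb₀).1, if_neg]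
        rintro rfl
        exact (mem_sdiff.mp hb₀).2 hu
      rw [hlx, h1, h2]
      ring
    -- the functional does not vanish at the vertices outside `G`
    have hlne : ∀ σ ∈ Φ.facets, G ⊆ σ → ∀ a b, a ≠ b → σ \ G = {a, b} → l a ≠ 0 := by
      intro σ hσ hG a b hab hs hla
      have ha : a ∈ σ \ G := by rw [hs]; simp
      have hb : b ∈ σ \ G := by rw [hs]; simp
      rw [hlx] at hla
      set t : ℝ := crd σ₀ a₀ a / crd σ₀ a₀ ξ with ht
      have h1 : crd σ₀ a₀ (a - t • ξ) = 0 := by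
        rw [map_sub, map_smul, smul_eq_mul, ht]
        field_simp
        ring
      have h2 : crd σ₀ b₀ (a - t • ξ) = 0 := by
        rw [map_sub, map_smul, smul_eq_mul, ht]
        field_simp
        linarith
      have h3 : a - t • ξ = ∑ v ∈ G, crd σ₀ v (a - t • ξ) • v := by
        conv_lhs => rw [← Φ.sum_crd hσ₀ (a - t • ξ)]
        rw [← sum_sdiff hG₀, hs₀, sum_pair hab₀, h1, h2]
        simp
      have h4 : ∀ v ∈ σ \ G, crd σ v (a - t • ξ) = 0 := by
        intro v hv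
        rw [h3, Φ.crd_comb hσ _ hG (mem_sdiff.mp hv).1, if_neg (mem_sdiff.mp hv).2]
      have h5 := h4 b hb
      rw [map_sub, map_smul, smul_eq_mul, Φ.crd_self hσ (mem_sdiff.mp ha).1 (mem_sdiff.mp hb).1,
        if_neg hab, zero_sub, neg_eq_zero, mul_eq_zero] at h5
      have ht0 : t = 0 := by
        rcases h5 with h5 | h5
        · exact h5
        · exact absurd h5 (hξ σ hσ b (mem_sdiff.mp hb).1)
      have h6 := h4 a ha
      rw [ht0, zero_smul, sub_zero, Φ.crd_self hσ (mem_sdiff.mp ha).1 (mem_sdiff.mp ha).1,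
        if_pos rfl] at h6
      exact one_ne_zero h6
    -- the sign of the terms
    have hterm : ∀ σ ∈ Φ.facets, G ⊆ σ →
        0 ≤ (w σ * ∏ v ∈ σ \ G, crd σ v ξ)⁻¹ *
          (pl σ (fun v => |l v|) ξ * pl σ (fun v => |l v|) ξ) ∧
        (0 < (w σ * ∏ v ∈ σ \ G, crd σ v ξ)⁻¹ →
          0 < (w σ * ∏ v ∈ σ \ G, crd σ v ξ)⁻¹ *
            (pl σ (fun v => |l v|) ξ * pl σ (fun v => |l v|) ξ)) := by
      intro σ hσ hG
      obtain ⟨a, b, hab, hs⟩ := PosDir_pair Φ hc hσ hG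
      have ha : a ∈ σ \ G := by rw [hs]; simp
      have hb : b ∈ σ \ G := by rw [hs]; simp
      have hla := hlne σ hσ hG a b hab hs
      have hlb := hlne σ hσ hG b a hab.symm (by rw [hs, pair_comm])
      have hxa := hξ σ hσ a (mem_sdiff.mp ha).1
      have hxb := hξ σ hσ b (mem_sdiff.mp hb).1
      have hpl : pl σ (fun v => |l v|) ξ = crd σ a ξ * |l a| + crd σ b ξ * |l b| := by
        unfold pl
        rw [← sum_sdiff hG, hs, sum_pair hab]
        have : ∑ v ∈ G, crd σ v ξ • |l v| = 0 := sum_eq_zero fun v hv => by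
          rw [hlG v hv]; simp
        rw [this]
        simp
      have hl0 : crd σ a ξ * l a + crd σ b ξ * l b = 0 := by
        have h1 := Φ.pl_linear hσ l ξ
        unfold pl at h1
        rw [hlξ, ← sum_sdiff hG, hs, sum_pair hab] at h1
        have : ∑ v ∈ G, crd σ v ξ • l v = 0 := sum_eq_zero fun v hv => by
          rw [hlG v hv]; simp
        rw [this] at h1
        simpa using h1
      rw [hpl, hs, prod_pair hab]
      have hwσ := hwp σ hσ
      generalize crd σ a ξ = x at *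
      generalize crd σ b ξ = y at *
      generalize l a = p at *
      generalize l b = q at *
      rcases lt_or_gt_of_ne (mul_ne_zero hxa hxb) with hxy | hxy
      · -- opposite signs
        have hc1 : (w σ * (x * y))⁻¹ < 0 := by
          rw [inv_lt_zero]
          exact mul_neg_of_pos_of_neg hwσ hxy
        have hpq : 0 < p * q := by
          have h1 : x * p = - (y * q) := by linarith
          have h2 : (x * y) * (p * q) = - (y * q) ^ 2 := by
            calc (x * y) * (p * q) = (x * p) * (y * q) := by ring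
              _ = _ := by rw [h1]; ring
          have h3 : 0 < (y * q) ^ 2 := by positivity
          by_contra hcon
          have := mul_nonneg_of_nonpos_of_nonpos hxy.le (not_lt.mp hcon)
          linarith
        have h0 : x * |p| + y * |q| = 0 := by
          rcases pos_and_pos_or_neg_and_neg_of_mul_pos hpq with ⟨h1, h2⟩ | ⟨h1, h2⟩
          · rw [abs_of_pos h1, abs_of_pos h2]
            exact hl0
          · rw [abs_of_neg h1, abs_of_neg h2]
            linarith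
        rw [h0]
        refine ⟨by simp, fun h => absurd h (not_lt.mpr hc1.le)⟩
      · have hc1 : 0 < (w σ * (x * y))⁻¹ := by
          rw [inv_pos]
          exact mul_pos hwσ hxy
        have h0 : x * |p| + y * |q| ≠ 0 := by
          have hp' : 0 < |p| := abs_pos.mpr hla
          have hq' : 0 < |q| := abs_pos.mpr hlb
          rcases pos_and_pos_or_neg_and_neg_of_mul_pos hxy with ⟨h1, h2⟩ | ⟨h1, h2⟩
          · positivity
          · have h3 := mul_neg_of_neg_of_pos h1 hp'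
            have h4 := mul_neg_of_neg_of_pos h2 hq'
            exact (add_neg h3 h4).ne
        have h2 : 0 < (x * |p| + y * |q|) * (x * |p| + y * |q|) := mul_self_pos.mpr h0
        exact ⟨(mul_pos hc1 h2).le, fun _ => mul_pos hc1 h2⟩
    have hne : (Φ.facets.filter (fun σ => G ⊆ σ)).Nonempty :=
      ⟨σ₀, mem_filter.mpr ⟨hσ₀, hG₀⟩⟩
    have hcne : ∀ σ ∈ Φ.facets, G ⊆ σ → (w σ * ∏ v ∈ σ \ G, crd σ v ξ)⁻¹ ≠ 0 := by
      intro σ hσ hG
      refine inv_ne_zero (mul_ne_zero (hwp σ hσ).ne' (prod_ne_zero_iff.mpr fun v hv => ?_))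
      exact hξ σ hσ v (mem_sdiff.mp hv).1
    obtain ⟨σ₁, hσ₁, hpos⟩ := exists_pos_of_sum_zero_of_exists_nonzero _ hsum
      ⟨σ₀, mem_filter.mpr ⟨hσ₀, hG₀⟩, hcne σ₀ hσ₀ hG₀⟩
    refine ⟨fun v => |l v|, ?_⟩
    refine sum_pos' (fun σ hσ => (hterm σ (mem_filter.mp hσ).1 (mem_filter.mp hσ).2).1)
      ⟨σ₁, hσ₁, (hterm σ₁ (mem_filter.mp hσ₁).1 (mem_filter.mp hσ₁).2).2 hpos⟩

end Pool.LH12
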