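import Pool.Agent.LH12.Stmts

/-!
# The localisation functional kills products of two piecewise linear functions
-/

namespace Pool.LH12

open Finset

variable {d : ℕ}

lemma facet_subset_verts (Φ : Fan d) {σ : Finset (Fin d → ℝ)} (hσ : σ ∈ Φ.facets) :
    σ ⊆ Φ.verts := by
  intro v hv
  unfold Fan.verts
  rw [Finset.mem_biUnion]
  exact ⟨σ, hσ, hv⟩

lemma pl_eq_sum_verts (Φ : Fan d) {σ : Finset (Fin d → ℝ)} (hσ : σ ∈ Φ.facets)
    (p : (Fin d → ℝ) → ℝ) (ξ : Fin d → ℝ) :
    pl σ p ξ = ∑ u ∈ Φ.verts, p u * crd σ u ξ := by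
  unfold pl
  rw [← Finset.sum_subset (facet_subset_verts Φ hσ) (f := fun u => p u * crd σ u ξ)]
  · apply Finset.sum_congr rfl
    intro v _
    rw [smul_eq_mul, mul_comm]
  · intro u _ hu
    rw [crd_of_notMem hu]
    simp

/-- The localisation functional. -/
noncomputable def locT (Φ : Fan d) (w : Finset (Fin d → ℝ) → ℝ) (F : Finset (Fin d → ℝ))
    (ξ : Fin d → ℝ) (Q : Finset (Fin d → ℝ) → ℝ) : ℝ :=
  ∑ σ ∈ Φ.facets.filter (fun σ => F ⊆ σ), (w σ * ∏ v ∈ σ \ F, crd σ v ξ)⁻¹ * Q σ

lemma locT_lin (Φ : Fan d) (w : Finset (Fin d → ℝ) → ℝ) (F : Finset (Fin d → ℝ))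
    (ξ : Fin d → ℝ) (p : (Fin d → ℝ) → ℝ) (Q : Finset (Fin d → ℝ) → ℝ) :
    locT Φ w F ξ (fun σ => pl σ p ξ * Q σ) =
      ∑ u ∈ Φ.verts, p u * locT Φ w F ξ (fun σ => crd σ u ξ * Q σ) := by
  unfold locT
  simp_rw [Finset.mul_sum]
  rw [Finset.sum_comm]
  apply Finset.sum_congr rfl
  intro σ hσ
  rw [Finset.mem_filter] at hσ
  rw [pl_eq_sum_verts Φ hσ.1, Finset.sum_mul, Finset.mul_sum]
  apply Finset.sum_congr rfl
  intro u _
  ring

lemma locT_linear (Φ : Fan d) (w : Finset (Fin d → ℝ) → ℝ) (F : Finset (Fin d → ℝ))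
    (ξ : Fin d → ℝ) (l : (Fin d → ℝ) →ₗ[ℝ] ℝ) (Q : Finset (Fin d → ℝ) → ℝ) :
    l ξ * locT Φ w F ξ Q =
      ∑ u ∈ Φ.verts, l u * locT Φ w F ξ (fun σ => crd σ u ξ * Q σ) := by
  rw [← locT_lin]
  unfold locT
  rw [Finset.mul_sum]
  apply Finset.sum_congr rfl
  intro σ hσ
  rw [Finset.mem_filter] at hσ
  have h1 := Φ.pl_linear hσ.1 l ξ
  simp only [h1]
  ring

/-- Two facets at a wall. -/
lemma locT_wall (hE : S_E) (Φ : Fan d) (w : Finset (Fin d → ℝ) → ℝ) (hw : IsWeight w)
    (F : Finset (Fin d → ℝ)) (hF : F.card + 3 = d) (hint : ∃ v ∈ F, IsInt v)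
    (ξ : Fin d → ℝ) (hξ : Φ.Generic ξ) (u v : Fin d → ℝ) (hu : u ∉ F) (hv : v ∉ F)
    (huv : u ≠ v) :
    locT Φ w F ξ (fun σ => crd σ u ξ * crd σ v ξ) = 0 := by
  classical
  set τ : Finset (Fin d → ℝ) := insert u (insert v F) with hτ
  have hcard : τ.card + 1 = d := by
    rw [hτ, Finset.card_insert_of_notMem, Finset.card_insert_of_notMem hv]
    · omega
    · simp [huv, hu]
  have hsub : ∀ σ : Finset (Fin d → ℝ), τ ⊆ σ ↔ u ∈ σ ∧ v ∈ σ ∧ F ⊆ σ := by
    intro σ
    rw [hτ, Finset.insert_subset_iff, Finset.insert_subset_iff]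
  have hzero : ∀ σ ∈ Φ.facets.filter (fun σ => F ⊆ σ), ¬ τ ⊆ σ →
      (w σ * ∏ v ∈ σ \ F, crd σ v ξ)⁻¹ * (crd σ u ξ * crd σ v ξ) = 0 := by
    intro σ hσ hn
    rw [Finset.mem_filter] at hσ
    rw [hsub] at hn
    by_cases h1 : u ∈ σ
    · by_cases h2 : v ∈ σ
      · exact absurd ⟨h1, h2, hσ.2⟩ hn
      · rw [crd_of_notMem h2]; simp
    · rw [crd_of_notMem h1]; simp
  by_cases hex : ∃ σ ∈ Φ.facets, τ ⊆ σ
  · obtain ⟨v0, hv0, hv0i⟩ := hint
    obtain ⟨a, b, ha, hb, hab, hiff, hn⟩ := hE d Φ τ hcard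
      ⟨v0, by rw [hτ]; simp [hv0], hv0i⟩ hex
    obtain ⟨n, hn0, hnw⟩ := hw.wall τ hcard
    have hfa : insert a τ ∈ Φ.facets := ((hiff _).2 (Or.inl rfl)).1
    have hfb : insert b τ ∈ Φ.facets := ((hiff _).2 (Or.inr rfl)).1
    have hne : insert a τ ≠ insert b τ := by
      intro h
      have : a ∈ insert b τ := by rw [← h]; simp
      rw [Finset.mem_insert] at this
      rcases this with h1 | h1
      · exact hab h1
      · exact ha h1
    have hnapos : 0 < |n a| := by
      rw [← hnw a ha]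
      exact hw.pos _ (Φ.card _ hfa) (Φ.indep _ hfa)
    have hna : n a ≠ 0 := by
      intro h; rw [h] at hnapos; simp at hnapos
    have hnz : n ≠ 0 := by
      rintro rfl; simp at hna
    have hnab := hn n hn0 hnz
    have hFτ : F ⊆ τ := by
      rw [hτ]; intro x hx; simp [hx]
    -- evaluation of a term
    have key : ∀ e : Fin d → ℝ, e ∉ τ → insert e τ ∈ Φ.facets → n e ≠ 0 →
        (w (insert e τ) * ∏ v ∈ (insert e τ) \ F, crd (insert e τ) v ξ)⁻¹ *
          (crd (insert e τ) u ξ * crd (insert e τ) v ξ) = (|n e| / n e * n ξ)⁻¹ := by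
      intro e he hfe hne0
      have hset : (insert e τ) \ F = insert e (insert u {v}) := by
        ext x
        simp only [hτ, Finset.mem_sdiff, Finset.mem_insert, Finset.mem_singleton]
        constructor
        · rintro ⟨h1 | h1 | h1 | h1, h2⟩
          · exact Or.inl h1
          · exact Or.inr (Or.inl h1)
          · exact Or.inr (Or.inr h1)
          · exact absurd h1 h2
        · rintro (h1 | h1 | h1)
          · subst h1
            exact ⟨Or.inl rfl, fun h => he (hFτ h)⟩
          · subst h1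
            exact ⟨Or.inr (Or.inl rfl), hu⟩
          · subst h1
            exact ⟨Or.inr (Or.inr (Or.inl rfl)), hv⟩
      have heu : e ≠ u := by
        rintro rfl; exact he (by rw [hτ]; simp)
      have hev : e ≠ v := by
        rintro rfl; exact he (by rw [hτ]; simp)
      have hnξ : n ξ = crd (insert e τ) e ξ * n e := by
        conv_lhs => rw [← Φ.sum_crd hfe ξ]
        rw [map_sum, Finset.sum_insert he]
        rw [Finset.sum_eq_zero (s := τ)]
        · simp
        · intro x hx
          rw [map_smul, hn0 x hx]; simp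
      rw [hset, Finset.prod_insert (by simp [heu, hev]), Finset.prod_insert (by simp [huv]),
        Finset.prod_singleton, hnw e he]
      have h1 : crd (insert e τ) u ξ ≠ 0 := hξ _ hfe _ (by rw [hτ]; simp)
      have h2 : crd (insert e τ) v ξ ≠ 0 := hξ _ hfe _ (by rw [hτ]; simp)
      have h3 : crd (insert e τ) e ξ ≠ 0 := hξ _ hfe _ (by simp)
      have h4 : |n e| ≠ 0 := by simpa using hne0
      rw [hnξ]
      field_simp
    have hnb : n b ≠ 0 := by
      intro h; rw [h] at hnab; simp at hnab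
    unfold locT
    rw [← Finset.sum_subset (s₁ := {insert a τ, insert b τ})]
    · rw [Finset.sum_pair hne, key a ha hfa hna, key b hb hfb hnb]
      rcases lt_or_gt_of_ne hna with h | h
      · have hb' : 0 < n b := by
          by_contra h'
          push Not at h'
          have := mul_nonneg_of_nonpos_of_nonpos h.le h'
          linarith
        rw [abs_of_neg h, abs_of_pos hb', neg_div, div_self hna, div_self hnb]
        rw [neg_mul, one_mul, inv_neg]
        ring
      · have hb' : n b < 0 := by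
          by_contra h'
          push Not at h'
          have := mul_nonneg h.le h'
          linarith
        rw [abs_of_neg hb', abs_of_pos h, neg_div, div_self hna, div_self hnb]
        rw [neg_mul, one_mul, inv_neg]
        ring
    · intro σ hσ
      rw [Finset.mem_insert, Finset.mem_singleton] at hσ
      rw [Finset.mem_filter]
      have := (hiff σ).2 hσ
      exact ⟨this.1, hFτ.trans this.2⟩
    · intro σ hσ hσ'
      apply hzero σ hσ
      intro h
      apply hσ'
      rw [Finset.mem_filter] at hσ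
      have := (hiff σ).1 ⟨hσ.1, h⟩
      simpa using this
  · push Not at hex
    unfold locT
    apply Finset.sum_eq_zero
    intro σ hσ
    apply hzero σ hσ
    rw [Finset.mem_filter] at hσ
    exact hex σ hσ.1

theorem pkgG (hE : S_E) : S_G := by
  classical
  intro d Φ w hw F hF hint ξ hξ p q
  have hi := fun u v hu hv huv => locT_wall hE Φ w hw F hF hint ξ hξ u v hu hv huv
  -- no facet contains `F`
  by_cases hFex : ∃ σ ∈ Φ.facets, F ⊆ σ
  swap
  · push Not at hFex
    apply Finset.sum_eq_zero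
    intro σ hσ
    rw [Finset.mem_filter] at hσ
    exact absurd hσ.2 (hFex σ hσ.1)
  set T := locT Φ w F ξ with hT
  -- vanishing if `u` is not in the star of `F`
  have hstar : ∀ u : Fin d → ℝ, (¬ ∃ σ ∈ Φ.facets, F ⊆ σ ∧ u ∈ σ) →
      ∀ Q : Finset (Fin d → ℝ) → ℝ,
      T (fun σ => crd σ u ξ * Q σ) = 0 := by
    intro u hu Q
    rw [hT]
    unfold locT
    apply Finset.sum_eq_zero
    intro σ hσ
    rw [Finset.mem_filter] at hσ
    have h0 : crd σ u = 0 := crd_of_notMem (fun h => hu ⟨σ, hσ.1, hσ.2, h⟩)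
    simp [h0]
  have hcardF : ∀ σ ∈ Φ.facets, F ⊆ σ → (σ \ F).card = 3 := by
    intro σ hσ h
    rw [Finset.card_sdiff_of_subset h, Φ.card σ hσ]
    omega
  -- (iii)
  have hiii : ∀ u, u ∉ F → T (fun σ => crd σ u ξ) = 0 ∧
      T (fun σ => crd σ u ξ * crd σ u ξ) = 0 := by
    intro u hu
    by_cases hex : ∃ σ ∈ Φ.facets, F ⊆ σ ∧ u ∈ σ
    · obtain ⟨σ, hσ, hFσ, huσ⟩ := hex
      obtain ⟨b, hb⟩ : ∃ b, b ∈ (σ \ F).erase u := by
        apply Finset.card_pos.1
        rw [Finset.card_erase_of_mem (by simp [huσ, hu]), hcardF σ hσ hFσ]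
        norm_num
      rw [Finset.mem_erase, Finset.mem_sdiff] at hb
      have h1 := locT_linear Φ w F ξ (crd σ b) (fun σ => crd σ u ξ)
      have h2 := locT_linear Φ w F ξ (crd σ u) (fun σ => crd σ u ξ)
      rw [← hT] at h1 h2
      have hT1 : T (fun σ => crd σ u ξ) = 0 := by
        rw [Finset.sum_eq_zero] at h1
        · rcases mul_eq_zero.1 h1 with h | h
          · exact absurd h (hξ σ hσ b hb.2.1)
          · exact h
        · intro x _
          by_cases hxF : x ∈ F
          · rw [Φ.crd_self hσ (hFσ hxF) hb.2.1, if_neg, zero_mul]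
            rintro rfl
            exact hb.2.2 hxF
          · by_cases hxu : x = u
            · subst hxu
              rw [Φ.crd_self hσ huσ hb.2.1, if_neg (Ne.symm hb.1), zero_mul]
            · rw [hi x u hxF hu hxu, mul_zero]
      refine ⟨hT1, ?_⟩
      rw [hT1, mul_zero, Finset.sum_eq_single u] at h2
      · rw [Φ.crd_self hσ huσ huσ, if_pos rfl, one_mul] at h2
        exact h2.symm
      · intro x _ hxu
        by_cases hxF : x ∈ F
        · rw [Φ.crd_self hσ (hFσ hxF) huσ, if_neg hxu, zero_mul]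
        · rw [hi x u hxF hu hxu, mul_zero]
      · intro h
        exact absurd (facet_subset_verts Φ hσ huσ) h
    · constructor
      · have := hstar u hex (fun _ => 1)
        simpa using this
      · exact hstar u hex (fun σ => crd σ u ξ)
  have hoo : ∀ u v, u ∉ F → v ∉ F → T (fun σ => crd σ u ξ * crd σ v ξ) = 0 := by
    intro u v hu hv
    by_cases huv : u = v
    · subst huv
      exact (hiii u hu).2
    · exact hi u v hu hv huv
  obtain ⟨σ0, hσ0, hFσ0⟩ := hFex
  -- (iv)
  have hiv : T (fun _ => 1) = 0 := by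
    obtain ⟨b, hb⟩ : ∃ b, b ∈ σ0 \ F := by
      apply Finset.card_pos.1
      rw [hcardF σ0 hσ0 hFσ0]
      norm_num
    rw [Finset.mem_sdiff] at hb
    have h1 := locT_linear Φ w F ξ (crd σ0 b) (fun _ => 1)
    rw [← hT, Finset.sum_eq_zero] at h1
    · rcases mul_eq_zero.1 h1 with h | h
      · exact absurd h (hξ σ0 hσ0 b hb.1)
      · exact h
    · intro x _
      by_cases hxF : x ∈ F
      · rw [Φ.crd_self hσ0 (hFσ0 hxF) hb.1, if_neg, zero_mul]
        rintro rfl
        exact hb.2 hxF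
      · have := (hiii x hxF).1
        simp only [mul_one]
        rw [this, mul_zero]
  -- general step: from the outside to F
  have hstep : ∀ u ∈ F, ∀ Q : Finset (Fin d → ℝ) → ℝ, T Q = 0 → (∀ v, v ∉ F → T (fun σ => crd σ v ξ * Q σ) = 0) →
      T (fun σ => crd σ u ξ * Q σ) = 0 := by
    intro u hu Q hQ hv
    have h2 := locT_linear Φ w F ξ (crd σ0 u) Q
    rw [← hT, hQ, mul_zero, Finset.sum_eq_single u] at h2
    · rw [Φ.crd_self hσ0 (hFσ0 hu) (hFσ0 hu), if_pos rfl, one_mul] at h2
      exact h2.symm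
    · intro x _ hxu
      by_cases hxF : x ∈ F
      · rw [Φ.crd_self hσ0 (hFσ0 hxF) (hFσ0 hu), if_neg hxu, zero_mul]
      · rw [hv x hxF, mul_zero]
    · intro h
      exact absurd (facet_subset_verts Φ hσ0 (hFσ0 hu)) h
  have h1all : ∀ u, T (fun σ => crd σ u ξ) = 0 := by
    intro u
    by_cases hu : u ∈ F
    · have := hstep u hu (fun _ => 1) hiv (by
        intro v hv
        simpa using (hiii v hv).1)
      simpa using this
    · exact (hiii u hu).1
  have hio : ∀ u v, v ∉ F → T (fun σ => crd σ u ξ * crd σ v ξ) = 0 := by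
    intro u v hv
    by_cases hu : u ∈ F
    · exact hstep u hu (fun σ => crd σ v ξ) (h1all v) (fun x hx => hoo x v hx hv)
    · exact hoo u v hu hv
  have hall : ∀ u v, T (fun σ => crd σ u ξ * crd σ v ξ) = 0 := by
    intro u v
    by_cases hu : u ∈ F
    · apply hstep u hu (fun σ => crd σ v ξ) (h1all v)
      intro x hx
      have := hio v x hx
      simpa [mul_comm] using this
    · have := hio v u hu
      simpa [mul_comm] using this
  have h3 := locT_lin Φ w F ξ p (fun σ => pl σ q ξ)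
  have h4 : T (fun σ => pl σ p ξ * pl σ q ξ) = 0 := by
    rw [hT, h3]
    apply Finset.sum_eq_zero
    intro u _
    have h5 := locT_lin Φ w F ξ q (fun σ => crd σ u ξ)
    have h6 : locT Φ w F ξ (fun σ => crd σ u ξ * pl σ q ξ) = 0 := by
      have : (fun σ => crd σ u ξ * pl σ q ξ) = (fun σ => pl σ q ξ * crd σ u ξ) := by
        funext σ; ring
      rw [this, h5]
      apply Finset.sum_eq_zero
      intro v _
      rw [← hT, hall v u, mul_zero]
    rw [h6, mul_zero]
  exact h4

end Pool.LH12
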