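import Pool.Agent.LH12.Stmts

/-!
# Package E: an interior wall lies in exactly two facets, on opposite sides
-/

namespace Pool.LH12

open Finset

variable {d : ℕ}

/-- A facet which contains a wall is the wall with one more vertex. -/
lemma exists_insert (Φ : Fan d) {τ σ : Finset (Fin d → ℝ)} (hτ : τ.card + 1 = d)
    (hσ : σ ∈ Φ.facets) (hs : τ ⊆ σ) : ∃ a, a ∉ τ ∧ σ = insert a τ := by
  classical
  have h1 : (σ \ τ).card = 1 := by
    rw [Finset.card_sdiff_of_subset hs, Φ.card σ hσ]
    omega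
  obtain ⟨a, ha⟩ := Finset.card_eq_one.1 h1
  have ha' : a ∈ σ \ τ := by rw [ha]; exact Finset.mem_singleton_self a
  refine ⟨a, (Finset.mem_sdiff.1 ha').2, ?_⟩
  rw [← Finset.sdiff_union_of_subset hs, ha]
  rfl

/-- A functional which vanishes on a wall, in terms of the coordinate of the other vertex. -/
lemma wall_functional (Φ : Fan d) {τ : Finset (Fin d → ℝ)} {a : Fin d → ℝ} (ha : a ∉ τ)
    (hσ : insert a τ ∈ Φ.facets) (n : (Fin d → ℝ) →ₗ[ℝ] ℝ) (hn : ∀ v ∈ τ, n v = 0)
    (x : Fin d → ℝ) : n x = crd (insert a τ) a x * n a := by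
  conv_lhs => rw [← Φ.sum_crd hσ x]
  rw [map_sum, Finset.sum_insert ha, Finset.sum_eq_zero (s := τ), add_zero, map_smul, smul_eq_mul]
  intro v hv
  rw [map_smul, hn v hv, smul_zero]

lemma crd_wall_zero (Φ : Fan d) {τ : Finset (Fin d → ℝ)} {a : Fin d → ℝ} (ha : a ∉ τ)
    (hσ : insert a τ ∈ Φ.facets) (v : Fin d → ℝ) (hv : v ∈ τ) : crd (insert a τ) a v = 0 := by
  rw [Φ.crd_self hσ (Finset.mem_insert_of_mem hv) (Finset.mem_insert_self a τ), if_neg]
  rintro rfl
  exact ha hv

/-- Two facets with a common wall on the same side are equal. -/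
lemma same_side (Φ : Fan d) {τ : Finset (Fin d → ℝ)} {a c : Fin d → ℝ} (ha : a ∉ τ)
    (hc : c ∉ τ) (hσ : insert a τ ∈ Φ.facets) (hσ' : insert c τ ∈ Φ.facets)
    (h : 0 < crd (insert a τ) a c) : insert a τ = insert c τ := by
  classical
  -- a large multiple of the sum of the wall
  obtain ⟨N, hN0, hN⟩ : ∃ N : ℝ, 0 ≤ N ∧ ∀ v ∈ τ, 0 < N + crd (insert a τ) v c := by
    refine ⟨∑ v ∈ τ, |crd (insert a τ) v c| + 1, by positivity, ?_⟩
    intro v hv
    have h1 : |crd (insert a τ) v c| ≤ ∑ v ∈ τ, |crd (insert a τ) v c| :=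
      Finset.single_le_sum (f := fun v => |crd (insert a τ) v c|) (fun i _ => abs_nonneg _) hv
    have h2 := neg_abs_le (crd (insert a τ) v c)
    linarith
  set y : Fin d → ℝ := (∑ v ∈ τ, N • v) + c with hy
  apply Φ.eq_of_pos hσ hσ' (x := y)
  · intro v hv
    rw [hy, map_add, Φ.crd_comb hσ (fun _ => N) (Finset.subset_insert a τ) hv]
    rcases Finset.mem_insert.1 hv with rfl | hv'
    · rw [if_neg ha]
      linarith
    · rw [if_pos hv']
      exact hN v hv'
  · refine ⟨fun u => if u = c then 1 else N, ?_, ?_⟩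
    · intro v _
      dsimp only
      split_ifs
      · exact zero_le_one
      · exact hN0
    · rw [Finset.sum_insert hc, hy, add_comm]
      congr 1
      · simp
      · apply Finset.sum_congr rfl
        intro v hv
        dsimp only
        rw [if_neg]
        rintro rfl
        exact hc hv

/-- There is a facet on the other side of an interior wall. -/
lemma other_side (Φ : Fan d) {τ : Finset (Fin d → ℝ)} {a : Fin d → ℝ} (hτ : τ.card + 1 = d)
    (ha : a ∉ τ) (hσ : insert a τ ∈ Φ.facets) (hint : ∃ v ∈ τ, IsInt v) :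
    ∃ b, b ∉ τ ∧ insert b τ ∈ Φ.facets ∧ crd (insert a τ) a b < 0 := by
  classical
  set x : Fin d → ℝ := ∑ v ∈ τ, v with hx
  have hxpos : ∀ i, 0 < x i := by
    intro i
    rw [hx, Finset.sum_apply]
    obtain ⟨v, hv, hvi⟩ := hint
    exact Finset.sum_pos' (fun u hu => Φ.nonneg _ hσ u (Finset.mem_insert_of_mem hu) i)
      ⟨v, hv, hvi i⟩
  have hxcomb : x = ∑ v ∈ τ, (fun _ => (1 : ℝ)) v • v := by
    rw [hx]
    exact Finset.sum_congr rfl fun v _ => (one_smul ℝ v).symm
  -- the size of the neighbourhood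
  obtain ⟨δ, hδ0, hδ⟩ : ∃ δ : ℝ, 0 < δ ∧ ∀ ε, 0 < ε → ε < δ → ∀ i, 0 ≤ (x - ε • a) i := by
    have hne : (Finset.univ : Finset (Fin d)).Nonempty := by
      have : 0 < d := by omega
      exact ⟨⟨0, this⟩, Finset.mem_univ _⟩
    refine ⟨Finset.univ.inf' hne x, ?_, ?_⟩
    · rw [Finset.lt_inf'_iff]
      intro i _
      exact hxpos i
    · intro ε hε hεδ i
      have h1 : ε < x i := lt_of_lt_of_le hεδ (Finset.inf'_le _ (Finset.mem_univ i))
      have h2 : a i ≤ 1 := by
        rw [← Φ.sum_one _ hσ a (Finset.mem_insert_self a τ)]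
        exact Finset.single_le_sum
          (fun j _ => Φ.nonneg _ hσ a (Finset.mem_insert_self a τ) j) (Finset.mem_univ i)
      have h3 : ε * a i ≤ ε * 1 := mul_le_mul_of_nonneg_left h2 hε.le
      simp only [Pi.sub_apply, Pi.smul_apply, smul_eq_mul]
      linarith
  -- a facet which contains the points for arbitrarily small ε
  obtain ⟨σ, hσf, hσε⟩ : ∃ σ ∈ Φ.facets, ∀ η : ℝ, 0 < η → ∃ ε, 0 < ε ∧ ε < η ∧
      x - ε • a ∈ cone σ := by
    by_contra hcon
    push Not at hcon
    choose! η hη0 hη using hcon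
    have hne : Φ.facets.Nonempty := ⟨_, hσ⟩
    set η0 : ℝ := Φ.facets.inf' hne η with hη0'
    have hη00 : 0 < η0 := by
      rw [hη0', Finset.lt_inf'_iff]
      exact hη0
    set ε : ℝ := min δ η0 / 2 with hε
    have hm : 0 < min δ η0 := lt_min hδ0 hη00
    have hε0 : 0 < ε := by rw [hε]; linarith
    have hε1 : ε < δ := by
      rw [hε]
      have := min_le_left δ η0
      linarith
    have hε2 : ε < η0 := by
      rw [hε]
      have := min_le_right δ η0
      linarith
    obtain ⟨σ, hσ1, hσ2⟩ := Φ.cover (x - ε • a) (hδ ε hε0 hε1)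
    exact hη σ hσ1 ε hε0 (lt_of_lt_of_le hε2 (Finset.inf'_le _ hσ1)) hσ2
  have hxσ : x ∈ cone σ := by
    rw [Φ.mem_cone_iff hσf]
    intro v hv
    by_contra hneg
    push Not at hneg
    obtain ⟨ε, hε0, hε1, hε2⟩ := hσε (-(crd σ v x) / (1 + |crd σ v a|))
      (div_pos (by linarith) (by positivity))
    have h1 := (Φ.mem_cone_iff hσf).1 hε2 v hv
    rw [map_sub, map_smul, smul_eq_mul] at h1
    rw [lt_div_iff₀ (by positivity)] at hε1
    have h2 : -(ε * |crd σ v a|) ≤ ε * crd σ v a := by
      have := mul_le_mul_of_nonneg_left (neg_abs_le (crd σ v a)) hε0.le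
      linarith
    nlinarith
  have hxσ0 : x ∈ cone (insert a τ) := by
    rw [Φ.mem_cone_iff hσ]
    intro v hv
    rw [hxcomb, Φ.crd_comb hσ _ (Finset.subset_insert a τ) hv]
    split_ifs <;> norm_num
  have hsub : τ ⊆ σ := by
    intro v hv
    by_contra hv'
    have h1 := Φ.crd_eq_zero_of_mem hσ hσf hxσ0 hxσ (Finset.mem_insert_of_mem hv) hv'
    rw [hxcomb, Φ.crd_comb hσ _ (Finset.subset_insert a τ) (Finset.mem_insert_of_mem hv),
      if_pos hv] at h1
    norm_num at h1
  obtain ⟨b, hb, rfl⟩ := exists_insert Φ hτ hσf hsub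
  refine ⟨b, hb, hσf, ?_⟩
  obtain ⟨ε, hε0, _, hε2⟩ := hσε 1 one_pos
  have h1 := (Φ.mem_cone_iff hσf).1 hε2 b (Finset.mem_insert_self b τ)
  have h2 := wall_functional Φ hb hσf (crd (insert a τ) a) (crd_wall_zero Φ ha hσ) (x - ε • a)
  have h3 : crd (insert a τ) a x = 0 := by
    rw [hxcomb, Φ.crd_comb hσ _ (Finset.subset_insert a τ) (Finset.mem_insert_self a τ),
      if_neg ha]
  have h4 : crd (insert a τ) a a = 1 := by
    rw [Φ.crd_self hσ (Finset.mem_insert_self a τ) (Finset.mem_insert_self a τ), if_pos rfl]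
  rw [map_sub, map_smul, h3, h4, smul_eq_mul, mul_one, zero_sub] at h2
  by_contra hge
  push Not at hge
  have := mul_nonneg h1 hge
  linarith

/-- An interior wall lies in exactly two facets, on opposite sides. -/
theorem pkgE : S_E := by
  classical
  intro d Φ τ hτ hint hex
  obtain ⟨σ, hσ, hs⟩ := hex
  obtain ⟨a, ha, rfl⟩ := exists_insert Φ hτ hσ hs
  obtain ⟨b, hb, hσb, hneg⟩ := other_side Φ hτ ha hσ hint
  have haa : crd (insert a τ) a a = 1 := by
    rw [Φ.crd_self hσ (Finset.mem_insert_self a τ) (Finset.mem_insert_self a τ), if_pos rfl]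
  refine ⟨a, b, ha, hb, ?_, ?_, ?_⟩
  · rintro rfl
    rw [haa] at hneg
    norm_num at hneg
  · intro σ
    constructor
    · rintro ⟨hσf, hsub⟩
      obtain ⟨c, hc, rfl⟩ := exists_insert Φ hτ hσf hsub
      rcases lt_trichotomy (crd (insert a τ) a c) 0 with hlt | heq | hgt
      · right
        -- c and b on the same side
        have h1 := wall_functional Φ hb hσb (crd (insert a τ) a) (crd_wall_zero Φ ha hσ) c
        have h2 : 0 < crd (insert b τ) b c := by
          by_contra hle
          push Not at hle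
          nlinarith
        exact (same_side Φ hb hc hσb hσf h2).symm
      · exfalso
        -- c would be in the span of the wall
        have h1 : ∑ v ∈ τ, crd (insert a τ) v c • v = c := by
          conv_rhs => rw [← Φ.sum_crd hσ c]
          rw [Finset.sum_insert ha, heq, zero_smul, zero_add]
        have h2 : crd (insert c τ) c c = 1 := by
          rw [Φ.crd_self hσf (Finset.mem_insert_self c τ) (Finset.mem_insert_self c τ), if_pos rfl]
        have h3 := Φ.crd_comb hσf (fun v => crd (insert a τ) v c) (Finset.subset_insert c τ)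
          (Finset.mem_insert_self c τ)
        rw [h1, h2, if_neg hc] at h3
        norm_num at h3
      · left
        exact (same_side Φ ha hc hσ hσf hgt).symm
    · rintro (rfl | rfl)
      · exact ⟨hσ, Finset.subset_insert a τ⟩
      · exact ⟨hσb, Finset.subset_insert b τ⟩
  · intro n hn hn0
    have h1 : n a ≠ 0 := by
      intro h0
      apply hn0
      apply LinearMap.ext
      intro x
      rw [wall_functional Φ ha hσ n hn x, h0, mul_zero, LinearMap.zero_apply]
    have h2 := wall_functional Φ ha hσ n hn b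
    rw [h2]
    have h3 : 0 < n a * n a := mul_self_pos.2 h1
    nlinarith

end Pool.LH12
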