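import Pool.Agent.LH12.Stmts

/-!
# Package F: weights exist
-/

namespace Pool.LH12

open Finset

/-- The absolute value of the determinant of the vectors of `σ`, in the chosen order. -/
noncomputable def wdet (d : ℕ) (σ : Finset (Fin d → ℝ)) : ℝ :=
  if h : σ.card = d then
    |Matrix.det (Matrix.of fun i => ((σ.equivFinOfCardEq h).symm i : Fin d → ℝ))|
  else 0

theorem wdet_eq {d : ℕ} (σ : Finset (Fin d → ℝ)) (h : σ.card = d) (g : Fin d → (Fin d → ℝ))
    (hg : Function.Injective g) (hm : ∀ i, g i ∈ σ) :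
    wdet d σ = |Matrix.det (Matrix.of g)| := by
  unfold wdet
  rw [dif_pos h]
  set e₀ := (σ.equivFinOfCardEq h).symm with he₀
  let g' : Fin d → σ := fun i => ⟨g i, hm i⟩
  have hb : Function.Bijective g' := by
    rw [Fintype.bijective_iff_injective_and_card]
    refine ⟨fun i j hij => hg (congrArg Subtype.val hij), ?_⟩
    simp [h]
  let e : Fin d ≃ σ := Equiv.ofBijective g' hb
  let π : Equiv.Perm (Fin d) := e.trans e₀.symm
  have h1 : Matrix.of g = (Matrix.of fun i => (e₀ i : Fin d → ℝ)).submatrix π id := by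
    ext i j
    show g i j = (e₀ (π i) : Fin d → ℝ) j
    have : e₀ (π i) = e i := by simp [π]
    rw [this]
    rfl
  rw [h1, Matrix.det_permute, abs_mul]
  have h2 : |((Equiv.Perm.sign π : ℤ) : ℝ)| = 1 := by
    rcases Int.units_eq_one_or (Equiv.Perm.sign π) with h | h <;> rw [h] <;> simp
  rw [h2, one_mul]

theorem pkgF : S_F := by
  classical
  intro d
  refine ⟨wdet d, ?_, ?_⟩
  · intro σ h hi
    unfold wdet
    rw [dif_pos h, abs_pos]
    have h1 : LinearIndependent ℝ
        (fun i => ((σ.equivFinOfCardEq h).symm i : Fin d → ℝ)) :=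
      hi.comp _ (σ.equivFinOfCardEq h).symm.injective
    have h2 : IsUnit (Matrix.of fun i => ((σ.equivFinOfCardEq h).symm i : Fin d → ℝ)) :=
      Matrix.linearIndependent_rows_iff_isUnit.1 h1
    exact ((Matrix.isUnit_iff_isUnit_det _).1 h2).ne_zero
  · intro τ hτ
    obtain ⟨k, rfl⟩ : ∃ k, d = k + 1 := ⟨τ.card, hτ.symm⟩
    have hk : τ.card = k := by omega
    let e : Fin k ≃ τ := (τ.equivFinOfCardEq hk).symm
    let M : Fin (k + 1) → (Fin (k + 1) → ℝ) := Fin.cons 0 (fun i => (e i : Fin (k + 1) → ℝ))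
    let n : (Fin (k + 1) → ℝ) →ₗ[ℝ] ℝ :=
      (Matrix.detRowAlternating (R := ℝ) (n := Fin (k + 1))).toMultilinearMap.toLinearMap M 0
    have hn : ∀ x, n x = Matrix.det (Matrix.of (Fin.cons x (fun i => (e i : Fin (k + 1) → ℝ)) :
        Fin (k + 1) → (Fin (k + 1) → ℝ))) := by
      intro x
      show Matrix.det (Function.update M 0 x) = _
      rw [Fin.update_cons_zero]
      rfl
    refine ⟨n, ?_, ?_⟩
    · intro v hv
      rw [hn]
      refine Matrix.det_zero_of_row_eq (i := 0) (j := (e.symm ⟨v, hv⟩).succ) (Fin.succ_ne_zero _).symm ?_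
      show (Fin.cons v (fun i => (e i : Fin (k + 1) → ℝ)) : Fin (k + 1) → (Fin (k + 1) → ℝ)) 0 =
        (Fin.cons v (fun i => (e i : Fin (k + 1) → ℝ)) : Fin (k + 1) → (Fin (k + 1) → ℝ))
          (e.symm ⟨v, hv⟩).succ
      rw [Fin.cons_zero, Fin.cons_succ]
      simp
    · intro a ha
      rw [hn]
      apply wdet_eq
      · rw [Finset.card_insert_of_notMem ha, hk]
      · rw [Fin.cons_injective_iff]
        refine ⟨?_, fun i j hij => e.injective (Subtype.ext hij)⟩
        rintro ⟨i, hi⟩
        apply ha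
        rw [← hi]
        exact (e i).2
      · intro i
        refine Fin.cases ?_ (fun j => ?_) i
        · rw [Fin.cons_zero]
          exact Finset.mem_insert_self _ _
        · rw [Fin.cons_succ]
          exact Finset.mem_insert_of_mem (e j).2

end Pool.LH12
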