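import Pool.Agent.LH12.Rigid
import Pool.Agent.LH12.Avoid
import Pool.Agent.LH12.Connect
import Pool.Agent.LH12.Count
import Pool.Agent.LH12.FanOf
import Pool.Agent.LH12.Flat
import Pool.Agent.LH12.Lorentz
import Pool.Agent.LH12.MaxPrin
import Pool.Agent.LH12.PosDir
import Pool.Agent.LH12.TLemma
import Pool.Agent.LH12.Wall
import Pool.Agent.LH12.Weight

/-!
# The inequality `l_1 ≤ l_2` for geometric subdivisions
-/

namespace Pool.LH12

open Finset Polynomial

variable {d : ℕ}

lemma mem_allFaces (S : GeomSub d) {F : Finset (Fin d → ℝ)} :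
    F ∈ S.allFaces ↔ F = ∅ ∨ F ∈ S.K.faces := by
  unfold GeomSub.allFaces
  rw [Finset.mem_insert, Set.Finite.mem_toFinset]

/-- Geometric subdivisions are quasi-geometric: a face has at most as many vertices as its
carrier. -/
lemma card_le_carrier (S : GeomSub d) {F : Finset (Fin d → ℝ)} (hF : F ∈ S.allFaces) :
    F.card ≤ (carrier F).card := by
  rcases (mem_allFaces S).1 hF with rfl | hF
  · simp
  have hi := S.face_indep hF
  have h1 : ∀ v : F, (v : Fin d → ℝ) ∈ Submodule.span ℝ
      (((carrier F).image fun i => (Pi.single i (1 : ℝ) : Fin d → ℝ) : Finset (Fin d → ℝ)) :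
        Set (Fin d → ℝ)) := by
    intro v
    have h2 : (v : Fin d → ℝ) = ∑ i ∈ carrier F, (v : Fin d → ℝ) i • Pi.single i (1 : ℝ) := by
      funext j
      rw [Finset.sum_apply]
      simp only [Pi.smul_apply, Pi.single_apply, smul_eq_mul, mul_ite, mul_one, mul_zero]
      rw [Finset.sum_ite_eq]
      split_ifs with h
      · rfl
      · by_contra hne
        apply h
        unfold carrier
        rw [Finset.mem_filter]
        exact ⟨Finset.mem_univ j, v, v.2, hne⟩
    rw [h2]
    apply Submodule.sum_mem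
    intro i hi
    apply Submodule.smul_mem
    apply Submodule.subset_span
    rw [Finset.mem_coe, Finset.mem_image]
    exact ⟨i, hi, rfl⟩
  have h3 := linearIndependent_le_span_finset (R := ℝ) (fun v : F => (⟨v, h1 v⟩ :
      Submodule.span ℝ (((carrier F).image fun i => (Pi.single i (1 : ℝ) : Fin d → ℝ) :
        Finset (Fin d → ℝ)) : Set (Fin d → ℝ))))
  have h4 : Set.finrank ℝ (Set.range (fun v : F => (v : Fin d → ℝ))) = F.card := by
    rw [Set.finrank, finrank_span_eq_card hi]
    simp
  rw [← h4]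
  calc Set.finrank ℝ (Set.range (fun v : F => (v : Fin d → ℝ)))
      ≤ Set.finrank ℝ (((carrier F).image fun i => (Pi.single i (1 : ℝ) : Fin d → ℝ) :
        Finset (Fin d → ℝ)) : Set (Fin d → ℝ)) := by
        apply Submodule.finrank_mono
        rw [Submodule.span_le]
        rintro _ ⟨v, rfl⟩
        exact h1 v
    _ ≤ ((carrier F).image fun i => (Pi.single i (1 : ℝ) : Fin d → ℝ)).card :=
        finrank_span_finset_le_card _
    _ ≤ (carrier F).card := Finset.card_image_le

/-- **Main inequality.** -/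
theorem main_le (hd : 4 ≤ d) (S : GeomSub d) : S.localH.coeff 1 ≤ S.localH.coeff 2 := by
  classical
  have hC := pkgC
  have hD := pkgD hC
  have hC2 : S_C2 := fun d Φ L L' h => eq_of_generic Φ L L' h
  have hE := pkgE
  have hG := pkgG hE
  obtain ⟨Φ, hΦ⟩ := pkgB hC d (by omega) S
  obtain ⟨_, h1, h2⟩ := pkgA d S fun F hF => card_le_carrier S hF
  rw [h1 (by omega), h2 (by omega)]
  set E := S.allFaces.filter (fun F => F.card = 2 ∧ carrier F = univ) with hEdef
  have hcount := count_le Φ hC2 hG pkgF pkgH pkgJ pkgK (pkgL hD) (pkgM hD) hd E (by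
    intro σ hσ e he hc hcar
    rw [hEdef, Finset.mem_filter]
    refine ⟨(mem_allFaces S).2 (Or.inr ((hΦ e).2 ⟨?_, σ, hσ, he⟩)), hc, hcar⟩
    rw [← Finset.card_pos]
    omega)
  have hone : ∀ F ∈ S.allFaces, F.card = 1 → ∃ v ∈ Φ.verts, F = {v} := by
    intro F hF hc
    obtain ⟨v, rfl⟩ := Finset.card_eq_one.1 hc
    rcases (mem_allFaces S).1 hF with h | h
    · simp at h
    · obtain ⟨_, σ, hσ, h3⟩ := (hΦ _).1 h
      exact ⟨v, (mem_verts Φ).2 ⟨σ, hσ, h3 (Finset.mem_singleton_self v)⟩, rfl⟩
  have hface : ∀ v ∈ Φ.verts, ({v} : Finset (Fin d → ℝ)) ∈ S.allFaces := by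
    intro v hv
    obtain ⟨σ, hσ, hv⟩ := (mem_verts Φ).1 hv
    refine (mem_allFaces S).2 (Or.inr ((hΦ _).2 ⟨Finset.singleton_nonempty v, σ, hσ, ?_⟩))
    rw [Finset.singleton_subset_iff]
    exact hv
  have hVi : (S.allFaces.filter (fun F => F.card = 1 ∧ carrier F = univ)).card = (Vi Φ).card := by
    symm
    apply Finset.card_bij (fun v _ => ({v} : Finset (Fin d → ℝ)))
    · intro v hv
      rw [mem_Vi] at hv
      rw [Finset.mem_filter]
      refine ⟨hface v hv.1, Finset.card_singleton v, ?_⟩
      ext i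
      rw [mem_carrier_singleton]
      simp [(hv.2 i).ne']
    · intro v _ u _ h
      exact Finset.singleton_injective h
    · intro F hF
      rw [Finset.mem_filter] at hF
      obtain ⟨v, hv, rfl⟩ := hone F hF.1 hF.2.1
      refine ⟨v, ?_, rfl⟩
      rw [mem_Vi]
      refine ⟨hv, fun i => ?_⟩
      have h3 : i ∈ carrier {v} := by rw [hF.2.2]; exact Finset.mem_univ i
      rw [mem_carrier_singleton] at h3
      exact lt_of_le_of_ne (verts_nonneg Φ hv i) h3.symm
  have hVf : (S.allFaces.filter (fun F => F.card = 1 ∧ (carrier F).card + 1 = d)).card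
      = (Vf Φ).card := by
    symm
    apply Finset.card_bij (fun v _ => ({v} : Finset (Fin d → ℝ)))
    · intro v hv
      rw [mem_Vf] at hv
      rw [Finset.mem_filter]
      exact ⟨hface v hv.1, Finset.card_singleton v, hv.2⟩
    · intro v _ u _ h
      exact Finset.singleton_injective h
    · intro F hF
      rw [Finset.mem_filter] at hF
      obtain ⟨v, hv, rfl⟩ := hone F hF.1 hF.2.1
      refine ⟨v, ?_, rfl⟩
      rw [mem_Vf]
      exact ⟨hv, hF.2.2⟩
  rw [hVi, hVf]
  have h5 : (d : ℤ) * ((Vi Φ).card : ℤ) + ((Vf Φ).card : ℤ) ≤ (E.card : ℤ) := by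
    exact_mod_cast hcount
  linarith

/-- The local h-vector of a geometric subdivision of a simplex with at most five vertices is
unimodal. -/
theorem unimodal_le_five (hd : d ≤ 5) (S : GeomSub d) (i : ℕ) (hi : i < d / 2) :
    S.localH.coeff i ≤ S.localH.coeff (i + 1) := by
  obtain ⟨h0, h1, _⟩ := pkgA d S fun F hF => card_le_carrier S hF
  rcases Nat.eq_zero_or_pos i with rfl | hpos
  · rw [h0 (by omega), h1 (by omega)]
    positivity
  · have h4 : 4 ≤ d := by omega
    have h5 : i = 1 := by omega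
    subst h5
    exact main_le h4 S

end Pool.LH12
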