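import Pool.Agent.LH12.Key

/-!
# The rigidity map is injective
-/

namespace Pool.LH12

open Finset

variable {d : ℕ} (Φ : Fan d)

open Classical in
/-- Interior vertices. -/
noncomputable def Vi : Finset (Fin d → ℝ) := Φ.verts.filter IsInt

/-- Vertices in the relative interior of a facet of the simplex. -/
noncomputable def Vf : Finset (Fin d → ℝ) :=
  Φ.verts.filter (fun v => (carrier {v}).card + 1 = d)

/-- The ring of polynomials in the heights. -/
abbrev Rg := MvPolynomial Φ.verts ℝ

/-- The unknowns. -/
abbrev Unk := ((Vi Φ) → (Fin d → Rg Φ)) × ((Vi Φ) → Rg Φ) × ((Vf Φ) → Rg Φ)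

open Classical in
/-- Extension of the unknown functionals to all vertices. -/
noncomputable def extG (m : Unk Φ) (v : Fin d → ℝ) (i : Fin d) : Rg Φ :=
  if h : v ∈ Vi Φ then m.1 ⟨v, h⟩ i
  else if h' : v ∈ Vf Φ then (if v i = 0 then m.2.2 ⟨v, h'⟩ else 0) else 0

open Classical in
/-- Extension of the unknown scalars to all vertices. -/
noncomputable def extS (m : Unk Φ) (v : Fin d → ℝ) : Rg Φ :=
  if h : v ∈ Vi Φ then m.2.1 ⟨v, h⟩ else 0

lemma extG_add (m m' : Unk Φ) (v : Fin d → ℝ) (i : Fin d) :
    extG Φ (m + m') v i = extG Φ m v i + extG Φ m' v i := by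
  unfold extG
  split_ifs <;> simp

lemma extS_add (m m' : Unk Φ) (v : Fin d → ℝ) :
    extS Φ (m + m') v = extS Φ m v + extS Φ m' v := by
  unfold extS
  split_ifs <;> simp

lemma extG_smul (r : Rg Φ) (m : Unk Φ) (v : Fin d → ℝ) (i : Fin d) :
    extG Φ (r • m) v i = r * extG Φ m v i := by
  unfold extG
  split_ifs <;> simp

lemma extS_smul (r : Rg Φ) (m : Unk Φ) (v : Fin d → ℝ) :
    extS Φ (r • m) v = r * extS Φ m v := by
  unfold extS
  split_ifs <;> simp

/-- One half of the rigidity equation. -/
noncomputable def half (m : Unk Φ) (v u : Fin d → ℝ) : Rg Φ :=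
  ∑ i, u i • extG Φ m v i + extS Φ m v * hgt Φ u

lemma half_add (m m' : Unk Φ) (v u : Fin d → ℝ) :
    half Φ (m + m') v u = half Φ m v u + half Φ m' v u := by
  unfold half
  rw [extS_add]
  simp only [extG_add, smul_add, Finset.sum_add_distrib]
  ring

lemma half_smul (r : Rg Φ) (m : Unk Φ) (v u : Fin d → ℝ) :
    half Φ (r • m) v u = r * half Φ m v u := by
  unfold half
  rw [extS_smul]
  simp only [extG_smul]
  rw [mul_add, Finset.mul_sum]
  congr 1
  · apply Finset.sum_congr rfl
    intro i _
    rw [mul_smul_comm]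
  · ring

open Classical in
/-- The rigidity map; `E` is the set of interior edges. -/
noncomputable def rmap (E : Finset (Finset (Fin d → ℝ))) :
    Unk Φ →ₗ[Rg Φ] ((Vi Φ → Rg Φ) × (E → Rg Φ)) where
  toFun m := (fun v => half Φ m v v, fun e => ∑ v ∈ e.1, ∑ u ∈ e.1.erase v, half Φ m v u)
  map_add' m m' := by
    ext1
    · funext v
      simp [half_add]
    · funext e
      simp [half_add, Finset.sum_add_distrib]
  map_smul' r m := by
    ext1
    · funext v
      simp [half_smul]
    · funext e
      simp [half_smul, Finset.mul_sum]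

lemma mem_Vi {v : Fin d → ℝ} : v ∈ Vi Φ ↔ v ∈ Φ.verts ∧ IsInt v := by
  classical
  unfold Vi
  rw [Finset.mem_filter]

lemma mem_Vf {v : Fin d → ℝ} : v ∈ Vf Φ ↔ v ∈ Φ.verts ∧ (carrier {v}).card + 1 = d := by
  unfold Vf
  rw [Finset.mem_filter]

lemma mem_verts {v : Fin d → ℝ} : v ∈ Φ.verts ↔ ∃ σ ∈ Φ.facets, v ∈ σ := by
  unfold Fan.verts
  rw [Finset.mem_biUnion]
  rfl

lemma verts_nonneg {v : Fin d → ℝ} (hv : v ∈ Φ.verts) (i : Fin d) : 0 ≤ v i := by
  obtain ⟨σ, hσ, hv⟩ := (mem_verts Φ).1 hv
  exact Φ.nonneg σ hσ v hv i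

lemma mem_carrier_singleton {v : Fin d → ℝ} {i : Fin d} : i ∈ carrier {v} ↔ v i ≠ 0 := by
  unfold carrier
  simp

/-- In a vertex of a facet the vanishing coordinate is unique. -/
lemma unique_zero {v : Fin d → ℝ} (hv : v ∈ Vf Φ) {i j : Fin d} (hi : v i = 0) (hj : v j = 0) :
    i = j := by
  by_contra hij
  have h1 := ((mem_Vf Φ).1 hv).2
  have h2 : carrier {v} ⊆ (univ.erase i).erase j := by
    intro k hk
    rw [mem_carrier_singleton] at hk
    rw [Finset.mem_erase, Finset.mem_erase]
    refine ⟨?_, ?_, Finset.mem_univ k⟩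
    · rintro rfl
      exact hk hj
    · rintro rfl
      exact hk hi
  have h3 := Finset.card_le_card h2
  rw [Finset.card_erase_of_mem (by simp [Ne.symm hij]), Finset.card_erase_of_mem (by simp)] at h3
  simp only [Finset.card_univ, Fintype.card_fin] at h3
  have : 0 < d := Fin.pos i
  have hd2 : 2 ≤ d := by
    by_contra hlt
    have hd1 : d = 1 := by omega
    subst hd1
    exact hij (Subsingleton.elim i j)
  omega

lemma exists_zero {v : Fin d → ℝ} (hv : v ∈ Vf Φ) : ∃ i, v i = 0 := by
  by_contra hne
  push Not at hne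
  have h1 := ((mem_Vf Φ).1 hv).2
  have h2 : carrier {v} = univ := by
    ext i
    simp [mem_carrier_singleton, hne i]
  rw [h2] at h1
  simp at h1

lemma zero_not_Vi {v : Fin d → ℝ} {i : Fin d} (hi : v i = 0) : v ∉ Vi Φ := by
  intro h
  exact (((mem_Vi Φ).1 h).2 i).ne' hi

/-- If all coordinates `i` with `v i = 0` satisfy `u i = 0` and there is such an `i`, the half
equation is trivial. -/
lemma half_zero (m : Unk Φ) {v u : Fin d → ℝ} {i₀ : Fin d} (hv : v i₀ = 0) (hu : u i₀ = 0) :
    half Φ m v u = 0 := by
  classical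
  have h1 : v ∉ Vi Φ := zero_not_Vi Φ hv
  unfold half extS
  rw [dif_neg h1, zero_mul, add_zero]
  apply Finset.sum_eq_zero
  intro i _
  unfold extG
  rw [dif_neg h1]
  split_ifs with h2 h3
  · rw [unique_zero Φ h2 h3 hv, hu, zero_smul]
  · rw [smul_zero]
  · rw [smul_zero]

/-- The solutions of the equations satisfy the rigidity equations for all pairs of vertices of a
common facet. -/
lemma rig_of_ker (E : Finset (Finset (Fin d → ℝ)))
    (hE : ∀ σ ∈ Φ.facets, ∀ e ⊆ σ, e.card = 2 → carrier e = univ → e ∈ E)
    {m : Unk Φ} (hm : rmap Φ E m = 0) : Rig Φ (extS Φ m) (extG Φ m) := by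
  classical
  have h0 : ∀ σ ∈ Φ.facets, ∀ v ∈ σ, ∀ u ∈ σ, half Φ m v u + half Φ m u v = 0 := by
    intro σ hσ v hv u hu
    by_cases hc : ∃ i, v i = 0 ∧ u i = 0
    · obtain ⟨i, hi, hi'⟩ := hc
      rw [half_zero Φ m hi hi', half_zero Φ m hi' hi, add_zero]
    · push Not at hc
      by_cases hvu : v = u
      · subst hvu
        have hint : v ∈ Vi Φ := by
          rw [mem_Vi]
          refine ⟨subset_verts Φ hσ hv, fun i => ?_⟩
          have h1 := Φ.nonneg σ hσ v hv i
          have h2 : v i ≠ 0 := fun h => hc i h h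
          exact lt_of_le_of_ne h1 h2.symm
        have h3 := congrArg (fun x => x.1 ⟨v, hint⟩) hm
        simp only [rmap, LinearMap.coe_mk, AddHom.coe_mk, Prod.fst_zero, Pi.zero_apply] at h3
        rw [h3, add_zero]
      · have he : ({v, u} : Finset (Fin d → ℝ)) ∈ E := by
          apply hE σ hσ
          · intro x hx
            rw [Finset.mem_insert, Finset.mem_singleton] at hx
            rcases hx with rfl | rfl
            · exact hv
            · exact hu
          · exact Finset.card_pair hvu
          · ext i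
            unfold carrier
            simp only [Finset.mem_insert, Finset.mem_singleton, ne_eq, exists_eq_or_imp,
              exists_eq_left, Finset.mem_filter, Finset.mem_univ, true_and, iff_true]
            by_cases hi : v i = 0
            · exact Or.inr (hc i hi)
            · exact Or.inl hi
        have h3 := congrArg (fun x => x.2 ⟨{v, u}, he⟩) hm
        simp only [rmap, LinearMap.coe_mk, AddHom.coe_mk, Prod.snd_zero, Pi.zero_apply] at h3
        rw [Finset.sum_pair hvu] at h3
        have h4 : ({v, u} : Finset (Fin d → ℝ)).erase v = {u} := by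
          ext x
          simp only [Finset.mem_erase, Finset.mem_insert, Finset.mem_singleton]
          constructor
          · rintro ⟨h5, h6 | h6⟩
            · exact absurd h6 h5
            · exact h6
          · rintro rfl
            exact ⟨fun h => hvu h.symm, Or.inr rfl⟩
        have h5 : ({v, u} : Finset (Fin d → ℝ)).erase u = {v} := by
          ext x
          simp only [Finset.mem_erase, Finset.mem_insert, Finset.mem_singleton]
          constructor
          · rintro ⟨h5, h6 | h6⟩
            · exact h6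
            · exact absurd h6 h5
          · rintro rfl
            exact ⟨hvu, Or.inl rfl⟩
        rw [h4, h5, Finset.sum_singleton, Finset.sum_singleton] at h3
        exact h3
  intro σ hσ v hv u hu
  have h1 := h0 σ hσ v hv u hu
  unfold half at h1
  linear_combination h1

/-- Package C, second part. -/
def S_C2 : Prop := ∀ (d : ℕ) (Φ : Fan d) (L L' : (Fin d → ℝ) →ₗ[ℝ] ℝ),
  (∀ ξ, Φ.Generic ξ → L ξ = L' ξ) → L = L'

/-- The piecewise linear extension as a linear map. -/
noncomputable def plL (σ : Finset (Fin d → ℝ)) (s : (Fin d → ℝ) → ℝ) :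
    (Fin d → ℝ) →ₗ[ℝ] ℝ := ∑ v ∈ σ, s v • crd σ v

lemma plL_apply (σ : Finset (Fin d → ℝ)) (s : (Fin d → ℝ) → ℝ) (x : Fin d → ℝ) :
    plL σ s x = pl σ s x := by
  unfold plL pl
  simp [mul_comm]

/-- **The rigidity map is injective.** -/
theorem rmap_injective (hC2 : S_C2) (hG : S_G) (hFw : S_F) (hH : S_H) (hJ : S_J) (hK : S_K)
    (hL : S_L) (hM : S_M) (hd : 4 ≤ d) (E : Finset (Finset (Fin d → ℝ)))
    (hE : ∀ σ ∈ Φ.facets, ∀ e ⊆ σ, e.card = 2 → carrier e = univ → e ∈ E) :
    Function.Injective (rmap Φ E) := by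
  classical
  rw [← LinearMap.ker_eq_bot, LinearMap.ker_eq_bot']
  intro m hm
  have hr := rig_of_ker Φ E hE hm
  -- the scalars vanish
  have hS : ∀ v ∈ Φ.verts, extS Φ m v = 0 := by
    intro v hv
    apply MvPolynomial.funext
    intro h
    rw [map_zero]
    have h1 := hM d Φ (by omega) (fun v => MvPolynomial.eval h (extS Φ m v)) ?_ ?_
    · exact h1 v hv
    · intro v _ hvi
      have : v ∉ Vi Φ := fun h => hvi ((mem_Vi Φ).1 h).2
      unfold extS
      rw [dif_neg this, map_zero]
    · intro σ hσ σ' hσ' hc v hv hvi x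
      by_cases hss : σ = σ'
      · rw [hss]
      · have hc2 : (σ ∩ σ').card < d := by
          refine lt_of_lt_of_eq ?_ (Φ.card σ hσ)
          apply Finset.card_lt_card
          refine ⟨Finset.inter_subset_left, fun hsub => hss ?_⟩
          apply Finset.eq_of_subset_of_card_le
          · intro y hy
            exact (Finset.mem_inter.1 (hsub hy)).2
          · rw [Φ.card σ hσ, Φ.card σ' hσ']
        obtain ⟨G, hvG, hGs, hGc⟩ := Finset.exists_subsuperset_card_eq
          (s := {v}) (t := σ ∩ σ') (n := d - 2) (by simpa using hv) (by simp; omega) (by omega)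
        have hkey : plL σ (fun v => MvPolynomial.eval h (extS Φ m v))
            = plL σ' (fun v => MvPolynomial.eval h (extS Φ m v)) := by
          apply hC2 d Φ
          intro ξ hξ
          rw [plL_apply, plL_apply]
          have h2 := key Φ hG hFw hH hJ hK hr (G := G) (by omega) hd
            (v₀ := v) (hvG (Finset.mem_singleton_self v)) hvi hσ hσ'
            (fun y hy => (Finset.mem_inter.1 (hGs hy)).1)
            (fun y hy => (Finset.mem_inter.1 (hGs hy)).2) hξ
          have h3 := congrArg (MvPolynomial.eval h) h2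
          unfold pl at h3 ⊢
          rw [map_sum, map_sum] at h3
          simpa [MvPolynomial.smul_eval] using h3
        have h4 := congrArg (fun L => L x) hkey
        simp only [plL_apply] at h4
        exact h4
  -- the functionals vanish
  have hGz : ∀ v ∈ Φ.verts, ∀ i, extG Φ m v i = 0 := by
    intro v hv i
    apply MvPolynomial.funext
    intro h
    rw [map_zero]
    have h1 := hL d Φ (by omega) (fun v i => MvPolynomial.eval h (extG Φ m v i)) ?_ ?_ v hv
    · exact congrFun h1 i
    · intro σ hσ v hv u hu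
      have h2 := hr σ hσ v hv u hu
      rw [hS v (subset_verts Φ hσ hv), hS u (subset_verts Φ hσ hu), zero_mul, zero_mul, add_zero,
        add_zero] at h2
      have h3 := congrArg (MvPolynomial.eval h) h2
      rw [map_add, map_sum, map_sum, map_zero] at h3
      simp only [MvPolynomial.smul_eval] at h3
      have h4 : ∀ a b : Fin d → ℝ, ∑ i, MvPolynomial.eval h (extG Φ m a i) * b i
          = ∑ i, b i * MvPolynomial.eval h (extG Φ m a i) := by
        intro a b
        apply Finset.sum_congr rfl
        intro i _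
        rw [mul_comm]
      rw [h4, h4]
      exact h3
    · intro j
      funext i
      obtain ⟨k, hk⟩ : ∃ k : Fin d, k ≠ j := by
        haveI : Nontrivial (Fin d) := Fin.nontrivial_iff_two_le.2 (by omega)
        exact exists_ne j
      have h2 : (Pi.single j (1 : ℝ) : Fin d → ℝ) ∉ Vi Φ := zero_not_Vi Φ (i := k) (by simp [hk])
      have h3 : (Pi.single j (1 : ℝ) : Fin d → ℝ) ∉ Vf Φ := by
        intro h3
        have h4 := ((mem_Vf Φ).1 h3).2
        have h5 : carrier {(Pi.single j (1 : ℝ) : Fin d → ℝ)} = {j} := by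
          ext l
          rw [mem_carrier_singleton, Finset.mem_singleton]
          by_cases hl : l = j
          · subst hl
            simp
          · simp [hl]
        rw [h5] at h4
        simp at h4
        omega
      simp only [Pi.zero_apply]
      unfold extG
      rw [dif_neg h2, dif_neg h3, map_zero]
  -- conclusion
  ext1
  · funext v i
    have h1 := hGz v ((mem_Vi Φ).1 v.2).1 i
    unfold extG at h1
    rw [dif_pos v.2] at h1
    exact h1
  · ext1
    · funext v
      have h1 := hS v ((mem_Vi Φ).1 v.2).1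
      unfold extS at h1
      rw [dif_pos v.2] at h1
      exact h1
    · funext v
      obtain ⟨i, hi⟩ := exists_zero Φ v.2
      have h1 := hGz v ((mem_Vf Φ).1 v.2).1 i
      unfold extG at h1
      rw [dif_neg (zero_not_Vi Φ hi), dif_pos v.2, if_pos hi] at h1
      exact h1

/-- **The counting inequality.** -/
theorem count_le (hC2 : S_C2) (hG : S_G) (hFw : S_F) (hH : S_H) (hJ : S_J) (hK : S_K)
    (hL : S_L) (hM : S_M) (hd : 4 ≤ d) (E : Finset (Finset (Fin d → ℝ)))
    (hE : ∀ σ ∈ Φ.facets, ∀ e ⊆ σ, e.card = 2 → carrier e = univ → e ∈ E) :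
    d * (Vi Φ).card + (Vf Φ).card ≤ E.card := by
  have h1 := LinearMap.finrank_le_finrank_of_injective
    (rmap_injective Φ hC2 hG hFw hH hJ hK hL hM hd E hE)
  rw [Module.finrank_prod, Module.finrank_prod, Module.finrank_prod] at h1
  have h2 : Module.finrank (Rg Φ) ((Vi Φ) → (Fin d → Rg Φ)) = (Vi Φ).card * d := by
    rw [Module.finrank_pi_fintype]
    simp
  rw [h2] at h1
  simp only [Module.finrank_fintype_fun_eq_card, Fintype.card_coe] at h1
  have h3 : d * (Vi Φ).card = (Vi Φ).card * d := mul_comm _ _
  omega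

end Pool.LH12
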