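import Pool.Agent.LH12.Defs

/-!
# Statements of the packages
-/

namespace Pool.LH12

open Finset Polynomial

/-- Package A: the first coefficients of the local h-polynomial. -/
def S_A : Prop := ∀ (d : ℕ) (S : GeomSub d),
  (∀ F ∈ S.allFaces, F.card ≤ (carrier F).card) →
    (1 ≤ d → S.localH.coeff 0 = 0) ∧
    (2 ≤ d → S.localH.coeff 1 =
      ((S.allFaces.filter (fun F => F.card = 1 ∧ carrier F = univ)).card : ℤ)) ∧
    (3 ≤ d → S.localH.coeff 2 =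
      ((S.allFaces.filter (fun F => F.card = 2 ∧ carrier F = univ)).card : ℤ)
      - ((d : ℤ) - 1) * ((S.allFaces.filter (fun F => F.card = 1 ∧ carrier F = univ)).card : ℤ)
      - ((S.allFaces.filter (fun F => F.card = 1 ∧ (carrier F).card + 1 = d)).card : ℤ))

/-- Package B: the fan of a geometric subdivision. -/
def S_B : Prop := ∀ (d : ℕ), 1 ≤ d → ∀ (S : GeomSub d), ∃ Φ : Fan d,
  ∀ F : Finset (Fin d → ℝ), F ∈ S.K.faces ↔ F.Nonempty ∧ ∃ σ ∈ Φ.facets, F ⊆ σ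

/-- Package C: avoiding finitely many proper subspaces. -/
def S_C : Prop := ∀ (d : ℕ) (T : Finset (Submodule ℝ (Fin d → ℝ))), (∀ S ∈ T, S ≠ ⊤) →
  ∀ U : Set (Fin d → ℝ), IsOpen U → U.Nonempty → ∃ x ∈ U, ∀ S ∈ T, x ∉ S

/-- Package D: a labelling of the facets which agrees on facets with a common wall meeting the
open convex set `U` is constant on the facets whose open cone meets `U`. -/
def S_D : Prop := ∀ (d : ℕ) (Φ : Fan d) (U : Set (Fin d → ℝ)), IsOpen U → Convex ℝ U →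
  (∀ x ∈ U, ∀ i, 0 < x i) → ∀ (X : Type) (f : Finset (Fin d → ℝ) → X),
  (∀ ρ ∈ Φ.facets, ∀ ρ' ∈ Φ.facets, d ≤ (ρ ∩ ρ').card + 1 →
    (∃ x ∈ U, x ∈ cone ρ ∧ x ∈ cone ρ') → f ρ = f ρ') →
  ∀ σ ∈ Φ.facets, ∀ σ' ∈ Φ.facets, (∃ x ∈ U, ∀ v ∈ σ, 0 < crd σ v x) →
    (∃ x ∈ U, ∀ v ∈ σ', 0 < crd σ' v x) → f σ = f σ'

/-- Package E: an interior wall lies in exactly two facets, on opposite sides. -/
def S_E : Prop := ∀ (d : ℕ) (Φ : Fan d) (τ : Finset (Fin d → ℝ)), τ.card + 1 = d →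
  (∃ v ∈ τ, IsInt v) → (∃ σ ∈ Φ.facets, τ ⊆ σ) →
  ∃ a b : Fin d → ℝ, a ∉ τ ∧ b ∉ τ ∧ a ≠ b ∧
    (∀ σ, (σ ∈ Φ.facets ∧ τ ⊆ σ) ↔ (σ = insert a τ ∨ σ = insert b τ)) ∧
    ∀ n : (Fin d → ℝ) →ₗ[ℝ] ℝ, (∀ v ∈ τ, n v = 0) → n ≠ 0 → n a * n b < 0

/-- A weight function: the absolute value of the determinant. -/
structure IsWeight {d : ℕ} (w : Finset (Fin d → ℝ) → ℝ) : Prop where
  pos : ∀ σ : Finset (Fin d → ℝ), σ.card = d →
    LinearIndependent ℝ (fun v : σ => (v : Fin d → ℝ)) → 0 < w σ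
  wall : ∀ τ : Finset (Fin d → ℝ), τ.card + 1 = d → ∃ n : (Fin d → ℝ) →ₗ[ℝ] ℝ,
    (∀ v ∈ τ, n v = 0) ∧ ∀ a, a ∉ τ → w (insert a τ) = |n a|

/-- Package F: weights exist. -/
def S_F : Prop := ∀ d : ℕ, ∃ w : Finset (Fin d → ℝ) → ℝ, IsWeight w

/-- Package G: the localisation functional at an interior face of codimension 3 kills all products of two
piecewise linear functions. -/
def S_G : Prop := ∀ (d : ℕ) (Φ : Fan d) (w : Finset (Fin d → ℝ) → ℝ), IsWeight w →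
  ∀ F : Finset (Fin d → ℝ), F.card + 3 = d → (∃ v ∈ F, IsInt v) →
  ∀ ξ, Φ.Generic ξ → ∀ p q : (Fin d → ℝ) → ℝ,
    ∑ σ ∈ Φ.facets.filter (fun σ => F ⊆ σ),
      (w σ * ∏ v ∈ σ \ F, crd σ v ξ)⁻¹ * (pl σ p ξ * pl σ q ξ) = 0

/-- Package H: the Lorentz lemma. -/
def S_H : Prop := ∀ (ι : Type) (I : Finset ι) (c S h : ι → ℝ), (∀ i ∈ I, c i ≠ 0) →
  ((I.filter (fun i => 0 < c i)).card ≤ 2) → ∑ i ∈ I, c i = 0 → ∑ i ∈ I, c i * S i = 0 →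
  ∑ i ∈ I, c i * h i = 0 → ∑ i ∈ I, c i * (S i * h i) = 0 → ∑ i ∈ I, c i * (S i * S i) = 0 →
  0 < ∑ i ∈ I, c i * (h i * h i) → ∀ i ∈ I, ∀ j ∈ I, S i = S j

/-- Package J: at a codimension 2 face at most two coefficients of the localisation functional are
positive, and there is a direction of positive square. -/
def S_J : Prop := ∀ (d : ℕ) (Φ : Fan d) (w : Finset (Fin d → ℝ) → ℝ), IsWeight w →
  ∀ G : Finset (Fin d → ℝ), G.card + 2 = d → ∀ ξ, Φ.Generic ξ →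
    ((Φ.facets.filter (fun σ => G ⊆ σ)).filter
      (fun σ => 0 < (w σ * ∏ v ∈ σ \ G, crd σ v ξ)⁻¹)).card ≤ 2 ∧
    ((∑ σ ∈ Φ.facets.filter (fun σ => G ⊆ σ), (w σ * ∏ v ∈ σ \ G, crd σ v ξ)⁻¹ = 0) →
      (∃ σ ∈ Φ.facets, G ⊆ σ) → ∃ h : (Fin d → ℝ) → ℝ,
      0 < ∑ σ ∈ Φ.facets.filter (fun σ => G ⊆ σ),
        (w σ * ∏ v ∈ σ \ G, crd σ v ξ)⁻¹ * (pl σ h ξ * pl σ h ξ))

/-- Package K: a polynomial which vanishes on a nonempty open set is zero. -/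
def S_K : Prop := ∀ (ι : Type) [Fintype ι] (P : MvPolynomial ι ℝ) (U : Set (ι → ℝ)), IsOpen U →
  U.Nonempty → (∀ x ∈ U, MvPolynomial.eval x P = 0) → P = 0

/-- Package L: the flat case. -/
def S_L : Prop := ∀ (d : ℕ) (Φ : Fan d), 1 ≤ d → ∀ g : (Fin d → ℝ) → (Fin d → ℝ),
  (∀ σ ∈ Φ.facets, ∀ v ∈ σ, ∀ u ∈ σ, ∑ i, g v i * u i + ∑ i, g u i * v i = 0) →
  (∀ i : Fin d, g (Pi.single i 1) = 0) → ∀ v ∈ Φ.verts, g v = 0

/-- Package M: the maximum principle. -/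
def S_M : Prop := ∀ (d : ℕ) (Φ : Fan d), 2 ≤ d → ∀ s : (Fin d → ℝ) → ℝ,
  (∀ v ∈ Φ.verts, ¬ IsInt v → s v = 0) →
  (∀ σ ∈ Φ.facets, ∀ σ' ∈ Φ.facets, d ≤ (σ ∩ σ').card + 1 → ∀ v ∈ σ ∩ σ', IsInt v →
    ∀ x, pl σ s x = pl σ' s x) → ∀ v ∈ Φ.verts, s v = 0

end Pool.LH12
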